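import Pool.Agent.Shared.Constr.Hull

/-!
Kurepa families of full size on every uncountable set of the model.
-/

namespace Pool.Agent.Shared.Constr

open Function Set Ordinal Pool.Agent.Lib.MP_053343_lc InModel

/-- `e` is a partial function on the natural numbers whose range contains `z`. -/
def Surj (e : ZFSet.{0}) (z : Ordinal.{0}) : Prop :=
  (∀ b < z, ∃ n, ZFSet.pair (nat n) b.toZFSet ∈ e) ∧
    ∀ n y y', ZFSet.pair (nat n) y ∈ e → ZFSet.pair (nat n) y' ∈ e → y = y'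

def Cnt (z a : Ordinal.{0}) : Prop := ∃ e ∈ L a, Surj e z

def fc : Fx :=
  .and (.neg (.ex (.and (.mem 0 2) (.neg (.ex (.and (.mem 0 4) (.ap 2 0 1)))))))
    (.neg (.ex (.ex (.ex (.and (.mem 2 5) (.and (.ap 3 2 1) (.and (.ap 3 2 0) (.neg (.eq 1 0)))))))))

theorem st_fc {a z : Ordinal} {e : ZFSet} (he : e ∈ L a) :
    (Surj e z → St (Iio a) fc [e, z.toZFSet, omega0.toZFSet]) ∧
      (z ≤ a → St (Iio a) fc [e, z.toZFSet, omega0.toZFSet] → Surj e z) := by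
  have key : St (Iio a) fc [e, z.toZFSet, omega0.toZFSet] ↔
      (¬ ∃ y ∈ L a, y ∈ z.toZFSet ∧ ¬ ∃ n ∈ L a, n ∈ ZFSet.omega ∧ ZFSet.pair n y ∈ e) ∧
      ¬ ∃ n ∈ L a, ∃ y ∈ L a, ∃ y' ∈ L a, n ∈ ZFSet.omega ∧ ZFSet.pair n y ∈ e ∧
        ZFSet.pair n y' ∈ e ∧ ¬ y = y' := by
    simp only [mem_L, omega_eq, ← St_ex]
    refine and_congr (not_congr (St_ex.trans (exists_congr fun y => and_congr_right fun _ =>
      and_congr_right fun _ => not_congr St_ex))) (not_congr (St_ex.trans (exists_congr fun y =>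
      and_congr_right fun _ => St_ex.trans (exists_congr fun y => and_congr_right fun _ => St_ex))))
  rw [key]
  constructor
  · rintro ⟨h1, h2⟩
    refine ⟨?_, ?_⟩
    · rintro ⟨y, -, hy, h⟩
      obtain ⟨b, hb, rfl⟩ := mem_toZFSet_iff.1 hy
      obtain ⟨n, hn⟩ := h1 b hb
      exact h ⟨_, (pair_L (L_trans he hn)).1, Lib.MP_053343_lc.mem_omega.2 ⟨n, rfl⟩, hn⟩
    · rintro ⟨_, -, y, -, y', -, hn, a1, a2, a3⟩
      obtain ⟨n, rfl⟩ := Lib.MP_053343_lc.mem_omega.1 hn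
      exact a3 (h2 n y y' a1 a2)
  · rintro hz ⟨h1, h2⟩
    refine ⟨fun b hb => by_contra fun c => h1 ⟨_, ord_L.2 (hb.trans_le hz),
      toZFSet_mem_toZFSet_iff.2 hb, ?_⟩, fun n y y' a1 a2 => by_contra fun c => h2
        ⟨_, (pair_L (L_trans he a1)).1, y, (pair_L (L_trans he a1)).2, y',
          (pair_L (L_trans he a2)).2, Lib.MP_053343_lc.mem_omega.2 ⟨n, rfl⟩, a1, a2, c⟩⟩
    rintro ⟨_, -, hn, a1⟩
    obtain ⟨n, rfl⟩ := Lib.MP_053343_lc.mem_omega.1 hn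
    exact c ⟨n, a1⟩

theorem Cnt.le {z a : Ordinal} (h : Cnt z a) : z ≤ a :=
  let ⟨_, h1, h2⟩ := h; le_of_forall_lt fun b hb =>
    let ⟨_, hn⟩ := h2.1 b hb; ord_L.1 (pair_L (L_trans h1 hn)).2

theorem Cnt.mono {z a z' a' : Ordinal} (h : Cnt z a) (h1 : z' ≤ z) (h2 : a ≤ a') : Cnt z' a' :=
  let ⟨e, h3, h4⟩ := h; ⟨e, L_mono h2 h3, fun b hb => h4.1 b (hb.trans_le h1), h4.2⟩

theorem cnt_iff {z a : Ordinal} :
    Cnt z a ↔ z ≤ a ∧ St (Iio a) (.ex fc) [z.toZFSet, omega0.toZFSet] := by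
  rw [St_ex]
  exact ⟨fun h => ⟨h.le, let ⟨e, h1, h2⟩ := h; ⟨e, mem_L.1 h1, (st_fc h1).1 h2⟩⟩,
    fun ⟨h, e, h1, h2⟩ => ⟨e, mem_L.2 h1, (st_fc (mem_L.2 h1)).2 h h2⟩⟩

theorem Cl.cnt {H : Set Ordinal} (h : Cl H) (ho : omega0 ∈ H) {z a : Ordinal} (hz : z ∈ H)
    (ha : a ∈ H) : Cnt (pi H z) (pi H a) ↔ Cnt z a := by
  rw [cnt_iff, cnt_iff, h.st ha _ _ (by simp [ord_XS hz, ord_XS ho]), ← not_lt, pi_lt_iff ha hz]
  simp [h.j_ord, pi_fix h.omega_sub]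

theorem Cl.init {H : Set Ordinal} (h : Cl H) (ho : omega0 ∈ H) {z a : Ordinal} (hz : z ∈ H)
    (ha : a ∈ H) (hc : Cnt z a) : Iio z ⊆ H := fun b hb => by
  obtain ⟨e, h1, h2⟩ := hc
  obtain ⟨u, h3, h4, h5⟩ := h.W ha fc [z.toZFSet, omega0.toZFSet]
    (by simp [ord_XS hz, ord_XS ho]) ⟨e, h1, (st_fc h1).1 h2⟩
  have h6 : S u ∈ L a := mem_L.2 ⟨u, h4, rfl⟩
  have h7 := (st_fc h6).2 (Cnt.le ⟨e, h1, h2⟩) h5
  obtain ⟨n, hn⟩ := h7.1 b hb
  obtain ⟨x, h8, h9⟩ := h.W' ha (.ap 1 2 0) [S u, nat n]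
    (by simp only [List.forall_mem_cons]; exact ⟨⟨u, ⟨h4.1, h3⟩, rfl⟩, h.nat_XS n, by simp⟩)
    ⟨_, (pair_L (L_trans h6 hn)).2, hn⟩
  exact h.ord (h7.2 n _ _ h9 hn ▸ h8)

/-- The type of a list of ordinals. -/
noncomputable def typ (m : List Ordinal.{0}) : List Ordinal.{0} := m.map (pi (cl {x | x ∈ m}))

/-- The collapse of a list over a set. -/
noncomputable def col (A : Set Ordinal.{0}) (l : List Ordinal.{0}) : List Ordinal.{0} :=
  l.map (pi (cl (A ∪ {x | x ∈ l})))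

theorem image_list (f : Ordinal → Ordinal) (m : List Ordinal) :
    f '' {x | x ∈ m} = {x | x ∈ m.map f} := by ext; simp

theorem Cl.typ_pi {H : Set Ordinal} (h : Cl H) {m : List Ordinal} (hm : ∀ x ∈ m, x ∈ H) :
    typ (m.map (pi H)) = typ m := by
  rw [typ, typ, List.map_map, ← image_list]
  exact List.map_congr_left fun x hx => h.comm hm (hm x hx)

theorem pi_congr {H K : Set Ordinal} {a : Ordinal} (h : ∀ x < a, x ∈ H ↔ x ∈ K) :
    pi H a = pi K a := by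
  induction a using WellFoundedLT.induction with | _ a ih
  exact pi_ext (fun x h1 h2 => ⟨x, (h x h2).1 h1, h2, (ih x h2 fun y hy => h y (hy.trans h2)).symm⟩)
    fun x h1 h2 => ⟨x, (h x h2).2 h1, h2, ih x h2 fun y hy => h y (hy.trans h2)⟩

theorem pi_iic {b x : Ordinal} {B : Set Ordinal} (h : x ≤ b) : pi (cl (Iic b ∪ B)) x = x :=
  pi_fix fun _ hy => subset_cl (Or.inl ((le_of_lt hy).trans h))

theorem col_col {a b : Ordinal} (h : a ≤ b) (l : List Ordinal) :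
    col (Iic a) (col (Iic b) l) = col (Iic a) l := by
  have c := cl_cl (Iic b ∪ {x | x ∈ l})
  have e : pi (cl (Iic b ∪ {x | x ∈ l})) '' Iic a = Iic a :=
    (image_congr fun x hx => pi_iic (le_trans hx h)).trans (image_id _)
  rw [col, col, List.map_map, ← image_list, ← e, ← image_union, e, col]
  exact List.map_congr_left fun x hx => c.comm
    ((union_subset_union_left _ (Iic_subset_Iic.2 h)).trans subset_cl) (subset_cl (Or.inr hx))

/-- Related points of two closures. -/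
def Rl (A : Set Ordinal.{0}) (l l' : List Ordinal.{0}) (x y : Ordinal.{0}) : Prop :=
  ∃ a : List Ordinal, (∀ z ∈ a, z ∈ A) ∧ x ∈ cl {z | z ∈ a ++ l} ∧ y ∈ cl {z | z ∈ a ++ l'} ∧
    pi (cl {z | z ∈ a ++ l}) x = pi (cl {z | z ∈ a ++ l'}) y

section Limit

variable {A : Set Ordinal.{0}} {l l' : List Ordinal.{0}}
  (h : ∀ a : List Ordinal, (∀ z ∈ a, z ∈ A) → typ (a ++ l) = typ (a ++ l'))
include h

theorem rl_up {a b : List Ordinal} (hb : ∀ z ∈ b ++ a, z ∈ A) {x y : Ordinal}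
    (hx : x ∈ cl {z | z ∈ a ++ l}) (hy : y ∈ cl {z | z ∈ a ++ l'})
    (e : pi (cl {z | z ∈ a ++ l}) x = pi (cl {z | z ∈ a ++ l'}) y) :
    pi (cl {z | z ∈ b ++ a ++ l}) x = pi (cl {z | z ∈ b ++ a ++ l'}) y := by
  have s : ∀ l : List Ordinal, {z | z ∈ a ++ l} ⊆ cl {z | z ∈ b ++ a ++ l} := fun l z hz =>
    subset_cl (by rw [List.append_assoc]; exact List.mem_append_right _ hz)
  have e1 := h _ hb
  rw [typ, typ, List.append_assoc, List.append_assoc, List.map_append, List.map_append (l₁ := b)] at e1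
  have e2 := (List.append_inj e1 (by simp)).2
  rw [← List.append_assoc, ← List.append_assoc] at e2
  rw [← (cl_cl _).comm (s l) ((cl_cl _).cl_sub (s l) hx),
    ← (cl_cl _).comm (s l') ((cl_cl _).cl_sub (s l') hy), image_list, image_list, e2] at e
  refine (pi_inj ?_ ?_).1 e
  · rw [← e2, ← image_list, ← (cl_cl _).cl_image (s l)]; exact ⟨x, hx, rfl⟩
  · rw [← image_list, ← (cl_cl _).cl_image (s l')]; exact ⟨y, hy, rfl⟩

theorem rl_ex {a : List Ordinal} (ha : ∀ z ∈ a, z ∈ A) {x : Ordinal}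
    (hx : x ∈ cl {z | z ∈ a ++ l}) : ∃ y ∈ cl {z | z ∈ a ++ l'},
      pi (cl {z | z ∈ a ++ l'}) y = pi (cl {z | z ∈ a ++ l}) x := by
  have e := h a ha
  have : pi _ x ∈ pi (cl {z | z ∈ a ++ l}) '' cl {z | z ∈ a ++ l} := ⟨x, hx, rfl⟩
  rwa [(cl_cl _).cl_image subset_cl, image_list, ← typ, e, typ, ← image_list,
    ← (cl_cl _).cl_image subset_cl] at this

omit h in
theorem cl_union {x : Ordinal} : x ∈ cl (A ∪ {z | z ∈ l}) ↔
    ∃ a : List Ordinal, (∀ z ∈ a, z ∈ A) ∧ x ∈ cl {z | z ∈ a ++ l} := by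
  classical
  constructor
  · intro hx
    obtain ⟨m, h1, h2⟩ := cl_fin hx
    refine ⟨m.filter (· ∈ A), by simp, cl_mono (fun z hz => ?_) h2⟩
    rcases h1 z hz with e | e
    · exact List.mem_append_left _ (List.mem_filter.2 ⟨hz, by simpa using e⟩)
    · exact List.mem_append_right _ e
  · rintro ⟨a, h1, h2⟩
    exact cl_mono (fun z hz => (List.mem_append.1 hz).imp (h1 z) id) h2

theorem rl_step {x y x' : Ordinal} (r : Rl A l l' x y) (h1 : x' ∈ cl (A ∪ {z | z ∈ l}))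
    (h2 : x' < x) : ∃ y' ∈ cl (A ∪ {z | z ∈ l'}), y' < y ∧ Rl A l l' x' y' := by
  obtain ⟨a, a1, a2, a3, a4⟩ := r
  obtain ⟨b, b1, b2⟩ := cl_union.1 h1
  have hb : ∀ z ∈ b ++ a, z ∈ A := List.forall_mem_append.2 ⟨b1, a1⟩
  have s : ∀ l : List Ordinal, cl {z | z ∈ a ++ l} ⊆ cl {z | z ∈ b ++ a ++ l} := fun l =>
    cl_mono fun z hz => by rw [List.append_assoc]; exact List.mem_append_right _ hz
  have b3 : x' ∈ cl {z | z ∈ b ++ a ++ l} := cl_mono (fun z hz => by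
    simp only [mem_ofPred_eq, List.mem_append] at hz ⊢; tauto) b2
  obtain ⟨y', c1, c2⟩ := rl_ex h hb b3
  refine ⟨y', cl_union.2 ⟨_, hb, c1⟩, ?_, _, hb, b3, c1, c2.symm⟩
  rw [← pi_lt_iff c1 (s l' a3), c2, ← rl_up h hb a2 a3 a4]
  exact pi_lt b3 h2

theorem rl_pi {x : Ordinal} : ∀ {y : Ordinal}, Rl A l l' x y →
    pi (cl (A ∪ {z | z ∈ l})) x = pi (cl (A ∪ {z | z ∈ l'})) y := by
  induction x using WellFoundedLT.induction with | _ x ih
  intro y r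
  refine pi_ext (fun x' h1 h2 => ?_) fun y' h1 h2 => ?_
  · obtain ⟨y', a, b, c⟩ := rl_step h r h1 h2
    exact ⟨y', a, b, (ih x' h2 c).symm⟩
  · obtain ⟨a, a1, a2, a3, a4⟩ := r
    obtain ⟨x', a, b, c, c1, c2, c3, c4⟩ := rl_step (fun a ha => (h a ha).symm)
      ⟨a, a1, a3, a2, a4.symm⟩ h1 h2
    exact ⟨x', a, b, ih x' b ⟨c, c1, c3, c2, c4.symm⟩⟩

theorem col_eq : col A l = col A l' := by
  have e := h [] (by simp)
  refine List.ext_getElem (by simpa [typ, col] using congrArg List.length e) fun i h1 h2 => ?_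
  simp only [col, List.length_map] at h1 h2
  simp only [col, List.getElem_map]
  refine rl_pi h ⟨[], by simp, subset_cl (List.getElem_mem h1), subset_cl (List.getElem_mem h2), ?_⟩
  have := congrArg (·[i]?) e
  simpa [typ, h1, h2] using this

end Limit

/-- The analysis of a trace on a closed set `N`. -/
structure Tr (N Z : Set Ordinal.{0}) (k : Ordinal.{0}) (l : List Ordinal.{0}) : Prop where
  cl : Cl N
  col : ∀ a ∈ N, ∀ m : List Ordinal, (∀ x ∈ m, x ∈ N) → ∀ x ∈ col (Iic a) m, x ∈ N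
  z : ∀ a, a ∈ Z ↔ a ∈ N ∧ a < k ∧ ∀ x ∈ Constr.col (Iic a) l, x ∈ N

namespace Tr

variable {N Z : Set Ordinal.{0}} {k : Ordinal.{0}} {l : List Ordinal.{0}} (h : Tr N Z k l)
include h

theorem down {a b : Ordinal} (ha : a ∈ Z) (hb : b ∈ N) (e : b ≤ a) : b ∈ Z :=
  have := (h.z a).1 ha
  (h.z b).2 ⟨hb, e.trans_lt this.2.1, col_col e l ▸ h.col b hb _ this.2.2⟩

theorem key {x a : Ordinal} (hx : x ∈ Constr.cl (Z ∪ {z | z ∈ l})) (ha : a ∈ Z) :
    ∃ b ∈ Z, a ≤ b ∧ x ∈ Constr.cl (Iic b ∪ {z | z ∈ l}) ∧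
      pi (Constr.cl (Iic b ∪ {z | z ∈ l})) x ∈ N := by
  obtain ⟨m, h1, h2⟩ := cl_union.1 hx
  obtain ⟨b, h3, h4⟩ : ∃ b ∈ Z, ∀ z ∈ a :: m, z ≤ b := by
    obtain ⟨b, h3, h4⟩ := (a :: m).finite_toSet.exists_maximal ⟨a, List.mem_cons_self⟩
    exact ⟨b, List.forall_mem_cons.2 ⟨ha, h1⟩ b h3, fun z hz => le_of_not_gt fun c =>
      (h4 hz c.le).not_gt c⟩
  have s : {z | z ∈ m ++ l} ⊆ Constr.cl (Iic b ∪ {z | z ∈ l}) := fun z hz => subset_cl
    ((List.mem_append.1 hz).imp (fun e => h4 z (List.mem_cons_of_mem _ e)) id)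
  refine ⟨b, h3, h4 a List.mem_cons_self, (cl_cl _).cl_sub s h2, h.cl.cl_sub ?_
    (A := pi (Constr.cl (Iic b ∪ {z | z ∈ l})) '' {z | z ∈ m ++ l})
    (by rw [← (cl_cl _).cl_image s]; exact ⟨x, h2, rfl⟩)⟩
  rintro _ ⟨z, hz, rfl⟩
  rcases List.mem_append.1 hz with e | e
  · rw [pi_iic (h4 z (List.mem_cons_of_mem _ e))]
    exact ((h.z z).1 (h1 z e)).1
  · exact ((h.z b).1 h3).2.2 _ (List.mem_map_of_mem e)

theorem pi_z {a : Ordinal} (ha : a ∈ Z) : pi (Constr.cl (Z ∪ {z | z ∈ l})) a = pi Z a := by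
  refine pi_congr fun x hx => ⟨fun e => ?_, fun e => subset_cl (Or.inl e)⟩
  obtain ⟨b, -, h1, -, h2⟩ := h.key e ha
  rw [pi_iic (hx.le.trans h1)] at h2
  exact h.down ha h2 hx.le

theorem typ_eq {a : Ordinal} (ha : a ∈ Z) {m : List Ordinal} (hm : ∀ x ∈ m, x ∈ N ∧ x ≤ a) :
    typ (m ++ Constr.col (Iic a) l) = typ (m.map (pi Z) ++ Constr.col Z l) := by
  have e1 := (cl_cl (Iic a ∪ {z | z ∈ l})).typ_pi (m := m ++ l) fun x hx =>
    subset_cl ((List.mem_append.1 hx).imp (fun e => (hm x e).2) id)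
  have e2 := (cl_cl (Z ∪ {z | z ∈ l})).typ_pi (m := m ++ l) fun x hx =>
    subset_cl ((List.mem_append.1 hx).imp (fun e => h.down ha (hm x e).1 (hm x e).2) id)
  rw [List.map_append, List.map_congr_left (f := pi _) (g := id) fun x hx => pi_iic (hm x hx).2,
    List.map_id] at e1
  rw [List.map_append, List.map_congr_left fun x hx =>
    h.pi_z (h.down ha (hm x hx).1 (hm x hx).2)] at e2
  exact e1.trans e2.symm

theorem bound {w d F : Ordinal} (h1 : w ∈ l) (h2 : omega0 ∈ l) (h3 : ∀ z < w, Cnt z w)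
    (h4 : ∀ a ∈ Constr.cl (Z ∪ {z | z ∈ l}), ¬ Cnt w a) (h5 : ∀ x ∈ N, x < w → x < d)
    (h6 : Cnt d F) (ne : Z.Nonempty) : ∀ x ∈ Constr.col Z l, x < F := by
  obtain ⟨a, ha⟩ := ne
  have h7 : pi (Constr.cl (Z ∪ {z | z ∈ l})) w ≤ d := le_of_forall_lt fun c hc => by
    obtain ⟨b, b1, b2, rfl⟩ := lt_pi.1 hc
    obtain ⟨e, -, -, e1, e2⟩ := h.key b1 ha
    rw [pi_fix ((cl_cl _).init (subset_cl (Or.inr h2)) e1 (subset_cl (Or.inr h1)) (h3 b b2))] at e2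
    exact (pi_le _ _).trans_lt (h5 b e2 b2)
  refine List.forall_mem_map.2 fun x hx => not_le.1 fun c => h4 x (subset_cl (Or.inr hx)) ?_
  exact ((cl_cl _).cnt (subset_cl (Or.inr h2)) (subset_cl (Or.inr h1))
    (subset_cl (Or.inr hx))).1 (h6.mono h7 c)

end Tr

variable {g : Lv}

theorem cnt_le {z : O g} {a : Ordinal} (ha : a ≤ th) (h : Cnt z.1 a) : Le LM (sg z).El ℕ := by
  obtain ⟨e, h1, h2, h3⟩ := h
  let E : ℕ × O g → Prop := fun p => cd LM p ∈ e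
  have : MF LM E := MF.of_df (Df.intro (.mem 0 1) [e] (by simpa [LM] using L_mono ha h1)
    fun _ => Iff.rfl)
  exact Le.of_rel (fun b n => E (n, b.v)) (by fun_prop) (fun b => h2 _ b.mem)
    fun _ _ n a b => PM.El.inj (cd_inj.1 (h3 n _ _ a b))

/-- The underlying ordinal. -/
def ov (x : O g) : Ordinal.{0} := x.1

/-- A list of ordinals. -/
def lv (l : List (O g)) : List Ordinal.{0} := l.map ov

theorem lv_inj : Injective (lv (g := g)) := List.map_injective_iff.2 Subtype.val_injective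

theorem up_adj (s : PM LM (O g)) (l : List (O g)) : up (adj s l) = up s ∪ {z | z ∈ lv l} := by
  ext x
  exact ⟨fun ⟨y, h, e⟩ => h.imp (fun h => ⟨y, h, e⟩) fun h => List.mem_map.2 ⟨y, h, e⟩,
    fun h => h.elim (fun ⟨y, h, e⟩ => ⟨y, Or.inl h, e⟩) fun h =>
      let ⟨y, h, e⟩ := List.mem_map.1 h; ⟨y, Or.inr h, e⟩⟩

theorem up_sg (a : O g) : up (sg (sO a)) = Iic a.1 := by
  ext x
  exact ⟨fun ⟨y, h, e⟩ => e ▸ lt_sO.1 h, fun h => ⟨⟨x, lt_of_le_of_lt h a.2⟩, lt_sO.2 h, rfl⟩⟩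

theorem le_sO {β : Type*} [Cd LM β] [Infinite β] {a : O g} (h : Le LM (sg a).El β) :
    Le LM (sg (sO a)).El β :=
  (Le.sub fun x hx => by simpa using (lt_sO.1 hx).lt_or_eq).trans (adj_le h [a])

theorem le_cnt {z w : O g} (hz : Le LM (sg z).El ℕ) (hw : ¬ Le LM (sg w).El ℕ) :
    ∃ F : O g, F < w ∧ Cnt z.1 F.1 := by
  obtain ⟨x, ⟨e, h1, h2⟩, h3⟩ := hz.cover
  obtain ⟨b, b1, b2, b3, b4⟩ := exists_lev [e, g.o.toZFSet] (by simpa [LM, ord_L, g.lt] using h1)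
  obtain ⟨g', k1, -⟩ := exists_above ⟨b, b1, b2.1, b3⟩ g
  have k2 : g.o < b := ord_L.1 (b4 _ (by simp))
  have hc : Cnt z.1 b := by
    refine ⟨e, b4 _ (by simp), fun c hc => ?_, fun n y y' a1 a2 => ?_⟩
    · obtain ⟨n, hn⟩ := h3 ⟨c, hc.trans z.2⟩ hc
      exact ⟨n, (h2 _).2 ⟨(n, _), hn, rfl⟩⟩
    · obtain ⟨p, p1, p2⟩ := (h2 _).1 a1
      obtain ⟨q, q1, q2⟩ := (h2 _).1 a2
      rw [cd_prod, ZFSet.pair_inj] at p2 q2
      rw [← p2.2, ← q2.2, ← p1, ← q1, nat_inj (p2.1.trans q2.1.symm)]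
  let i : O g → O g' := fun x => ⟨x.1, x.2.trans (k2.trans k1)⟩
  have h4 : ∀ a : O g, Le LM (sg (i a)).El (sg a).El ∧ Le LM (sg a).El (sg (i a)).El := fun a =>
    ⟨⟨fun x => (sg a).mk' ⟨x.v.1, lt_trans x.mem a.2⟩ x.mem, MF.of_code fun _ => rfl,
      fun _ _ e => PM.El.inj (Subtype.ext (congrArg (·.v.1) e :))⟩, ⟨fun x => (sg (i a)).mk' (i x.v) x.mem,
      MF.of_code fun _ => rfl, fun _ _ e => PM.El.inj (Subtype.ext (congrArg (·.v.1) e :))⟩⟩
  let H := clO (adj (sg (sO (i z))) [⟨b, k1⟩, ⟨omega0, g'.om⟩])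
  have c : Cl (up H) := up_clO _ ▸ cl_cl _
  have h5 : ∀ y, y ≤ z.1 ∨ y = b ∨ y = omega0 → y ∈ up H := fun y hy => by
    rw [up_clO, up_adj, up_sg]; exact subset_cl (by simpa [lv, ov, i] using hy)
  have h6 := (c.cnt (h5 _ (by simp)) (h5 _ (by simp)) (h5 _ (by simp))).2 hc
  rw [pi_fix fun y hy => h5 y (Or.inl (le_of_lt hy))] at h6
  have h7 : piO H ⟨b, k1⟩ < i w := not_le.1 fun e => hw ((h4 w).2.trans ((Le.sub fun _ a =>
    lt_of_lt_of_le a e).trans ((sg_piO _ _).trans (clO_le (adj_le (le_sO ((h4 z).1.trans hz)) _)))))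
  exact ⟨⟨_, lt_trans h7 w.2⟩, h7, h6⟩

/-- The collapse of a list inside the model. -/
noncomputable def colO (s : PM LM (O g)) (l : List (O g)) : List (O g) := l.map (piO (clO (adj s l)))

theorem lv_colO (s : PM LM (O g)) (l : List (O g)) : lv (colO s l) = col (up s) (lv l) := by
  rw [col, ← up_adj, ← up_clO, lv, lv, colO, List.map_map, List.map_map]; rfl

@[fun_prop] theorem mf_colO {α : Type*} [Cd LM α] {f : α → PM LM (O g)} {h : α → List (O g)}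
    (hf : MF LM f) (hh : MF LM h) : MF LM fun x => colO (f x) (h x) := by
  unfold colO; fun_prop

theorem lv_typ (l : List (O g)) : lv (colO (sg (zO g)) l) = typ (lv l) := by
  have : up (sg (zO g)) = ∅ := eq_empty_of_forall_notMem fun _ ⟨x, h, _⟩ => not_lt_bot (a := x.1) h
  rw [lv_colO, this, col, empty_union, typ]

theorem mem_lv {s : PM LM (O g)} {l : List (O g)} : (∀ x ∈ lv l, x ∈ up s) ↔ ∀ x ∈ l, x ∈ s := by
  simp only [lv, List.forall_mem_map, ov, mem_up]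

theorem exists_lv {l : List Ordinal} (h : ∀ x ∈ l, x < g.o) : ∃ m : List (O g), lv m = l :=
  ⟨l.pmap (fun x h => (⟨x, h⟩ : O g)) h, by simp [lv, List.map_pmap, ov]⟩

theorem traces {w : O g} (hw : ¬ Le LM (sg w).El ℕ) (hw' : ∀ z < w, Le LM (sg z).El ℕ) (k : O g)
    (s : PM LM (O g)) (hs : Le LM s.El ℕ) : ∃ en : List (O g) → ℕ, MF LM en ∧
      ∀ l l', w ∈ l → w ∈ l' → ⟨omega0, g.om⟩ ∈ l → ⟨omega0, g.om⟩ ∈ l' → en l = en l' →
        ∀ a ∈ s, a < k → (∀ x ∈ colO (sg (sO a)) l, x ∈ s) →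
          colO (sg (sO a)) l = colO (sg (sO a)) l' := by
  classical
  obtain ⟨D, d1, d2⟩ := choice' (M := LM) (R := fun (p : O g × List (O g) × List (O g)) m =>
    (∀ x ∈ m, x ≤ p.1) ∧ colO (sg (zO g)) (m ++ p.2.1) ≠ colO (sg (zO g)) (m ++ p.2.2))
    (by fun_prop)
  obtain ⟨N, n1, n2, n3, n4⟩ := exists_hull (fun i l => if i.unpair.1 = 0 then
    (colO (sg (sO (l.getD 0 (zO g)))) (l.drop 1)).getD i.unpair.2 (zO g) else
    (D (l.getD 0 (zO g), (l.drop 1).take (i.unpair.1 - 1), (l.drop 1).drop (i.unpair.1 - 1))).getD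
      i.unpair.2 (zO g)) (by fun_prop) s hs
  let Z := PM.lam (M := LM) (fun (l : List (O g)) a => a ∈ N ∧ a < k ∧
    ∀ x ∈ colO (sg (sO a)) l, x ∈ N) (by fun_prop)
  have hZ : MF LM Z := MF.pmlam MF.id'
  have tr : ∀ l, Tr (up N) (up (Z l)) k.1 (lv l) := fun l => by
    refine ⟨n3, ?_, fun a => ⟨?_, ?_⟩⟩
    · rintro _ ⟨a, ha, rfl⟩ m hm
      obtain ⟨m, rfl⟩ := exists_lv fun x hx => up_sub N (hm x hx)
      rw [← up_sg, ← lv_colO, mem_lv]
      intro x hx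
      obtain ⟨i, hi⟩ := List.mem_iff_getElem?.1 hx
      simpa [hi] using n4 (Nat.pair 0 i) (a :: m) (List.forall_mem_cons.2 ⟨ha, mem_lv.1 hm⟩)
    · rintro ⟨a, ha, rfl⟩
      exact ⟨mem_up.2 ha.1, ha.2.1, by rw [← up_sg, ← lv_colO, mem_lv]; exact ha.2.2⟩
    · rintro ⟨⟨a, ha, rfl⟩, h1, h2⟩
      exact ⟨a, ⟨ha, h1, by rwa [← up_sg, ← lv_colO, mem_lv] at h2⟩, rfl⟩
  obtain ⟨d, d3, d4⟩ : ∃ d < w, ∀ x ∈ N, x < w → x < d := by
    by_contra c
    push Not at c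
    refine hw ((Le.union (s := PM.lam (fun (i : N.El) (y : (sg w).El) => y.v ≤ i.v ∧ i.v < w)
      (by fun_prop)) (MF.pmlam MF.id') (fun y => ?_) fun i => ?_).trans (n1.pr Le.refl))
    · obtain ⟨x, a, b, e⟩ := c _ y.mem
      exact ⟨N.mk' x a, e, b⟩
    · by_cases e : i.v < w
      · exact (Le.toEl (fun y => y.v.v) (by fun_prop) (PM.El.inj.comp PM.El.inj)
          fun y => lt_sO.2 y.mem.1).trans (le_sO (hw' _ e))
      · exact ⟨fun _ => 0, by fun_prop, fun y => (e y.mem.2).elim⟩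
  obtain ⟨F, f1, f2⟩ := le_cnt (hw' d d3) hw
  let c : List (O g) → List (O g) := fun l => if ∃ a, a ∈ Z l then colO (Z l) l else []
  have hc : MF LM c := by simp only [c]; fun_prop
  let cut : Option N.El → PM LM (O g) :=
    PM.lam (fun o a => a ∈ N ∧ ∀ y, o = some y → a < y.v) (by fun_prop)
  have hcut : MF LM cut := MF.pmlam MF.id'
  obtain ⟨j, j1, j2⟩ := (n1.op.pr (hw' F f1).li)
  obtain ⟨en, e1, e2⟩ := choice' (M := LM) (R := fun l (p : Option N.El × List (sg F).El) =>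
    cut p.1 = Z l ∧ p.2.map (fun x => x.v) = c l) (by fun_prop)
  have e3 : ∀ l, w ∈ l → ⟨omega0, g.om⟩ ∈ l → ∃ p : Option N.El × List (sg F).El,
      cut p.1 = Z l ∧ p.2.map (fun x => x.v) = c l := fun l a1 a2 => by
    have a3 : ∀ x ∈ c l, x ∈ sg F := by
      simp only [c]
      split_ifs with e
      · obtain ⟨a, ha⟩ := e
        intro x hx
        refine (tr l).bound (List.mem_map_of_mem a1) (List.mem_map_of_mem a2) (fun z hz => ?_)
          (fun a ha e => hw (cnt_le ?_ e)) ?_ f2 ⟨_, mem_up.2 ha⟩ x.1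
          (lv_colO _ _ ▸ List.mem_map_of_mem hx)
        · obtain ⟨F, a, b⟩ := le_cnt (hw' ⟨z, hz.trans w.2⟩ hz) hw
          exact b.mono le_rfl (le_of_lt a)
        · rw [← up_adj, ← up_clO] at ha
          exact (le_of_lt (up_sub _ ha)).trans g.lt.le
        · rintro _ ⟨x, a, rfl⟩; exact d4 x a
      · simp
    obtain ⟨o, ho⟩ : ∃ o, cut o = Z l := by
      by_cases e : ∃ a, a ∈ N ∧ a ∉ Z l
      · obtain ⟨a, ⟨a4, a5⟩, a6⟩ := wellFounded_lt.has_min {a | a ∈ N ∧ a ∉ Z l} e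
        refine ⟨some (N.mk' a a4), PM.ext' fun x => ⟨fun h => by_contra fun c =>
          a6 x ⟨h.1, c⟩ (h.2 _ rfl), fun h => ⟨h.1, ?_⟩⟩⟩
        rintro _ ⟨⟩
        exact not_le.1 fun c => a5 (mem_up.1 ((tr l).down (mem_up.2 h) (mem_up.2 a4) c))
      · exact ⟨none, PM.ext' fun x => ⟨fun h => by_contra fun c => e ⟨x, h.1, c⟩,
          fun h => ⟨h.1, fun _ h => by cases h⟩⟩⟩
    exact ⟨(o, (c l).pmap (sg F).mk' a3), ho, by simp [List.map_pmap]⟩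
  refine ⟨fun l => j (en l), by fun_prop, fun l l' a1 a2 a3 a4 a5 a a6 a7 a8 => ?_⟩
  have b1 := e2 l (e3 l a1 a3)
  have b2 := e2 l' (e3 l' a2 a4)
  rw [j2 a5] at b1
  have b3 : Z l = Z l' := b1.1.symm.trans b2.1
  have b4 : a ∈ Z l := ⟨n2 a a6, a7, fun x hx => n2 x (a8 x hx)⟩
  have b5 : a ∈ Z l' := b3 ▸ b4
  have b6 : colO (Z l) l = colO (Z l') l' := by
    simpa only [c, if_pos (⟨a, b4⟩ : ∃ a, a ∈ Z l), if_pos (⟨a, b5⟩ : ∃ a, a ∈ Z l')] using b1.2.symm.trans b2.2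
  have b7 : ∀ l, col (Iic a.1) (lv (colO (sg (sO a)) l)) = lv (colO (sg (sO a)) l) := fun l => by
    rw [lv_colO, up_sg, col_col le_rfl]
  refine lv_inj ((b7 l).symm.trans ((col_eq fun m hm => by_contra fun ne => ?_).trans (b7 l')))
  obtain ⟨m, rfl⟩ := exists_lv fun x hx => lt_of_le_of_lt (hm x hx) a.2
  have b8 : ∀ m l : List (O g), typ (lv m ++ lv l) = lv (colO (sg (zO g)) (m ++ l)) := fun m l => by
    rw [lv_typ, lv, lv, lv, List.map_append]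
  obtain ⟨b9, b10⟩ := d2 (a, colO (sg (sO a)) l, colO (sg (sO a)) l')
    ⟨m, fun x hx => hm _ (List.mem_map_of_mem hx), fun e => ne (by rw [b8, b8, e])⟩
  have b11 : ∀ x ∈ lv (D (a, colO (sg (sO a)) l, colO (sg (sO a)) l')), x ∈ up N ∧ x ≤ a.1 := by
    refine List.forall_mem_map.2 fun x hx => ⟨mem_up.2 ?_, b9 x hx⟩
    obtain ⟨i, hi⟩ := List.mem_iff_getElem?.1 hx
    simpa [hi] using n4 (Nat.pair ((colO (sg (sO a)) l).length + 1) i)
      (a :: (colO (sg (sO a)) l ++ colO (sg (sO a)) l'))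
      (List.forall_mem_cons.2 ⟨b4.1, List.forall_mem_append.2 ⟨b4.2.2, b5.2.2⟩⟩)
  refine b10 (lv_inj ?_)
  rw [← b8, ← b8, lv_colO, lv_colO, up_sg, (tr l).typ_eq (mem_up.2 b4) b11,
    (tr l').typ_eq (mem_up.2 b5) b11, ← lv_colO, ← lv_colO, b6, b3]

theorem kh : KH LM := by
  intro α _ h
  have := infinite_of_not_le h
  obtain ⟨g, κ, h1, h2, h3, h4⟩ := exists_kappa α
  obtain ⟨i, k1, k2, k3⟩ := le_bounded h1
  obtain ⟨w, hw, hw'⟩ := wellFounded_lt.has_min {d : O g | ¬ Le LM (sg d).El ℕ}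
    ⟨κ, fun e => h (h1.trans e)⟩
  let V : TO g → PM LM (O g) → Prop := fun t x => t ≠ [] ∧ S (tv t) = cd LM x
  have h5 : MF LM fun p : TO g × PM LM (O g) => V p.1 p.2 := mf_val g _
  obtain ⟨t, t1, t2⟩ := choice (M := LM) (R := fun X t => V t (i X)) (by fun_prop)
    fun X => h4 _ (k3 X)
  let l : PM LM α → List (O g) := fun X => w :: ⟨omega0, g.om⟩ :: (t X).map Prod.fst
  have hl : MF LM l := by simp only [l]; fun_prop
  let Q : PM LM (O g × List (O g) × List ℕ) :=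
    PM.of (fun p => p.1 < κ ∧ ∀ x ∈ p.2.1, x < κ) (by fun_prop)
  obtain ⟨q, q1⟩ := Le.el_iff.1 ((Le.of_cover (s := Q) (fun p : (sg κ).El × List (sg κ).El × List ℕ =>
      (p.1.v, p.2.1.map (fun x => x.v), p.2.2)) (by fun_prop) fun p hp =>
      ⟨((sg κ).mk' _ hp.1, p.2.1.pmap (sg κ).mk' hp.2, p.2.2), by simp [List.map_pmap]⟩).trans
    (h2.pr (h2.li.pr Le.nat.li)))
  let T : PM LM α → O g → O g × List (O g) × List ℕ := fun X a =>
    (a, colO (sg (sO a)) (l X), (t X).map Prod.snd)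
  have hT : MF LM fun p : PM LM α × O g => T p.1 p.2 := by simp only [T]; fun_prop
  have h6 : ∀ X, ∀ a < κ, T X a ∈ Q := fun X a ha => ⟨ha, List.forall_mem_map.2 fun x _ =>
    not_le.1 fun e => not_le_prod h (not_le_opt (h3 a ha)) (h1.trans ((Le.sub fun _ b => lt_of_lt_of_le b e).trans
      ((sg_piO _ _).trans (clO_le (adj_le (le_sO (Le.trans
        ⟨some, by fun_prop, Option.some_injective _⟩ Le.right)) _)))))⟩
  refine ⟨PM.lam (fun X y => ∃ a, a < κ ∧ q.fn (T X a) = y) (by fun_prop), MF.pmlam MF.id',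
    fun X Y e => k2 (PM.ext' fun a => ?_), fun A => ?_⟩
  · by_cases ha : a < κ
    swap
    · exact iff_of_false (fun e => ha (k3 _ _ e)) fun e => ha (k3 _ _ e)
    have key : ∀ X, a ∈ i X ↔ a.1.toZFSet ∈
        S (pt (up (clO (adj (sg (sO a)) (l X)))) (tv (t X))) := fun X => by
      have c : Cl (up (clO (adj (sg (sO a)) (l X)))) := up_clO _ ▸ cl_cl _
      have s : ∀ y, y ∈ Iic a.1 ∪ {z | z ∈ lv (l X)} → y ∈ up (clO (adj (sg (sO a)) (l X))) :=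
        fun y hy => by rw [up_clO, up_adj, up_sg]; exact subset_cl hy
      rw [← c.j_S (t := tv (t X)) (List.forall_mem_map.2 fun e he => s _ (Or.inr
        (List.mem_map_of_mem (f := ov) (List.mem_cons_of_mem _ (List.mem_cons_of_mem _
          (List.mem_map_of_mem he)))))), (t2 X).2]
      have fx := pi_fix (a := a.1) fun y hy => s y (Or.inl (le_of_lt (a := y) (b := a.1) hy))
      rw [← fx, ← c.j_ord, c.j_mem (ord_XS (s a.1 (Or.inl (le_refl a.1)))), mem_cd_PM]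
      exact ⟨fun e => ⟨a, e, rfl⟩, fun ⟨x, e, e'⟩ => cd_inj.1 (e'.trans (rfl : _ = cd LM a)) ▸ e⟩
    obtain ⟨b, hb, e1⟩ : ∃ b, b < κ ∧ q.fn (T Y b) = q.fn (T X a) :=
      (congrArg (fun s => q.fn (T X a) ∈ s) e).mp ⟨a, ha, rfl⟩
    have e2 := q1 _ _ (h6 Y b hb) (h6 X a ha) e1
    simp only [T, Prod.mk.injEq] at e2
    obtain ⟨rfl, e3, e4⟩ := e2
    rw [key, key, ← tv_piO, ← tv_piO]
    have e5 := (List.cons.inj (List.cons.inj e3).2).2
    refine iff_of_eq (congrArg (fun u => _ ∈ S (tv u)) ?_)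
    rw [← List.zip_unzip (List.map _ (t X)), ← List.zip_unzip (List.map _ (t Y))]
    simp only [List.unzip_fst, List.unzip_snd, List.map_map] at e5 ⊢
    exact congrArg₂ _ e5.symm e4.symm
  · obtain ⟨B, b1, b2⟩ := choice' (M := LM) (R := fun n p => p ∈ Q ∧ q.fn p = A.fn n) (by fun_prop)
    obtain ⟨en, e1, e2⟩ := traces hw (fun z hz => by_contra fun c => hw' z c hz) κ
      (PM.of (fun x => ∃ n, x ∈ (B n).1 :: (B n).2.1) (by fun_prop))
      ((Le.of_cover (fun p : ℕ × ℕ => ((B p.1).1 :: (B p.1).2.1).getD p.2 (zO g)) (by fun_prop)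
        fun x hx => let ⟨n, hn⟩ := PM.mem_of.1 hx; let ⟨i, hi⟩ := List.mem_iff_getElem?.1 hn;
          ⟨(n, i), by simp only [List.getD_eq_getElem?_getD, hi, Option.getD_some]⟩).trans Le.sq)
    obtain ⟨j, j1, j2⟩ := (Le.refl (M := LM) (α := ℕ)).pr (Le.refl (α := ℕ)).li
    have key : ∀ X Y, en (l X) = en (l Y) → (t X).map Prod.snd = (t Y).map Prod.snd → ∀ n,
        (∃ a, a < κ ∧ q.fn (T X a) = A.fn n) → ∃ a, a < κ ∧ q.fn (T Y a) = A.fn n := by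
      rintro X Y a1 a2 n ⟨a, a3, a4⟩
      have a5 := b2 n ⟨_, h6 X a a3, a4⟩
      have a6 := q1 _ _ a5.1 (h6 X a a3) (a5.2.trans a4.symm)
      refine ⟨a, a3, a4 ▸ congrArg _ (Prod.ext rfl (Prod.ext (e2 _ _ (by simp [l]) (by simp [l])
        (by simp [l]) (by simp [l]) a1 a ⟨n, by simp [a6, T]⟩ a3
        fun x hx => ⟨n, by rw [a6]; exact List.mem_cons_of_mem _ hx⟩).symm a2.symm))⟩
    refine ⟨fun X => j (en (l X), (t X).map Prod.snd), by fun_prop, fun X Y e n => ?_⟩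
    have := Prod.mk.inj (j2 e)
    exact ⟨key X Y this.1 this.2 n, key Y X this.1.symm this.2.symm n⟩

end Pool.Agent.Shared.Constr
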