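import Pool.Agent.Shared.Constr.ZF

/-!
Condensation for the term hierarchy, and Skolem closures of sets of ordinals.
-/

namespace Pool.Agent.Shared.Constr

open Function Set Ordinal Pool.Agent.Lib.MP_053343_lc

/-- The level of the first instruction. -/
def hd (t : Tm) : Ordinal.{0} := (t.headD (0, 0)).1

def Cand (t u : Tm) : Prop := Ok (Iio (hd t)) u ∧ S u ∈ S t

open Classical in
/-- The least term denoting an element of the value of `t`. -/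
noncomputable def wit (t : Tm) : Tm :=
  if h : ∃ u, Cand t u then (IsWellFounded.wf (r := Lt)).min {u | Cand t u} h else []

theorem wit_spec {t : Tm} (h : ∃ u, Cand t u) : Cand t (wit t) ∧ ∀ u, Cand t u → ¬ Lt u (wit t) := by
  rw [wit, dif_pos h]
  exact ⟨WellFounded.min_mem _ _ h, fun u hu => WellFounded.not_lt_min _ {u | Cand t u} hu⟩

theorem wit_eq {t u : Tm} : wit t = u ↔
    (Cand t u ∧ ∀ v, Cand t v → ¬ Lt v u) ∨ ((∀ v, ¬ Cand t v) ∧ u = []) := by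
  by_cases h : ∃ u, Cand t u
  · have h1 := wit_spec h
    refine ⟨fun e => Or.inl (e ▸ h1), ?_⟩
    rintro (⟨h2, h3⟩ | ⟨h2, -⟩)
    · rcases trichotomous_of Lt (wit t) u with e | e | e
      exacts [(h3 _ h1.1 e).elim, e, (h1.2 _ h2 e).elim]
    · exact (h2 _ h1.1).elim
  · rw [wit, dif_neg h]
    exact ⟨fun e => Or.inr ⟨not_exists.1 h, e.symm⟩,
      fun e => e.elim (fun e => (h ⟨_, e.1⟩).elim) fun e => e.2.symm⟩

theorem wit_in (t : Tm) : In (Iio (hd t)) (wit t) := by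
  rcases wit_eq.1 (rfl : wit t = _) with h | h
  · exact h.1.1.2
  · rw [h.2]; exact in_nil

/-- Closed sets of levels. -/
structure Cl (H : Set Ordinal.{0}) : Prop extends Sc H where
  wit : ∀ t, Ok H t → In H (wit t)

/-- The transitive collapse of a set of ordinals. -/
noncomputable def pi (H : Set Ordinal.{0}) : Ordinal.{0} → Ordinal.{0} :=
  wellFounded_lt.fix fun a ih => sInf {c | ∀ b (h : b < a), b ∈ H → ih b h < c}

theorem pi_eq (H : Set Ordinal) (a : Ordinal) :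
    pi H a = sInf {c | ∀ b < a, b ∈ H → pi H b < c} := by
  rw [pi, WellFounded.fix_eq]

theorem pi_le (H : Set Ordinal) (a : Ordinal) : pi H a ≤ a := by
  induction a using WellFoundedLT.induction with | _ a ih
  rw [pi_eq]
  exact csInf_le' fun b h _ => (ih b h).trans_lt h

theorem pi_lt {H : Set Ordinal} {a b : Ordinal} (hb : b ∈ H) (h : b < a) : pi H b < pi H a := by
  rw [pi_eq H a]
  exact csInf_mem (s := {c | ∀ b < a, b ∈ H → pi H b < c})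
    ⟨a, fun b h _ => (pi_le H b).trans_lt h⟩ b h hb

theorem lt_pi {H : Set Ordinal} {a c : Ordinal} : c < pi H a ↔ ∃ b ∈ H, b < a ∧ pi H b = c := by
  refine ⟨?_, fun ⟨b, h1, h2, e⟩ => e ▸ pi_lt h1 h2⟩
  induction a using WellFoundedLT.induction with | _ a ih
  intro h
  rw [pi_eq] at h
  have := notMem_of_lt_csInf' h
  simp only [mem_ofPred_eq, not_forall, not_lt] at this
  obtain ⟨b, h1, h2, h3⟩ := this
  rcases h3.lt_or_eq with e | e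
  · obtain ⟨d, a1, a2, a3⟩ := ih b h1 e
    exact ⟨d, a1, a2.trans h1, a3⟩
  · exact ⟨b, h2, h1, e.symm⟩

theorem pi_lt_iff {H : Set Ordinal} {a b : Ordinal} (ha : a ∈ H) (hb : b ∈ H) :
    pi H a < pi H b ↔ a < b := by
  refine ⟨fun h => ?_, pi_lt ha⟩
  rcases lt_trichotomy a b with e | rfl | e
  exacts [e, (lt_irrefl _ h).elim, (lt_asymm h (pi_lt hb e)).elim]

theorem pi_inj {H : Set Ordinal} {a b : Ordinal} (ha : a ∈ H) (hb : b ∈ H) :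
    pi H a = pi H b ↔ a = b :=
  ⟨fun h => le_antisymm (not_lt.1 fun e => (pi_lt hb e).ne' h) (not_lt.1 fun e => (pi_lt ha e).ne h),
    congrArg _⟩

theorem pi_ext {H K : Set Ordinal} {a b : Ordinal}
    (h1 : ∀ x ∈ H, x < a → ∃ y ∈ K, y < b ∧ pi K y = pi H x)
    (h2 : ∀ y ∈ K, y < b → ∃ x ∈ H, x < a ∧ pi H x = pi K y) : pi H a = pi K b :=
  eq_of_forall_lt_iff fun c => by
    rw [lt_pi, lt_pi]
    exact ⟨fun ⟨x, a1, a2, e⟩ => e ▸ h1 x a1 a2, fun ⟨x, a1, a2, e⟩ => e ▸ h2 x a1 a2⟩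

theorem pi_fix {H : Set Ordinal} {a : Ordinal} (h : Iio a ⊆ H) : pi H a = a := by
  induction a using WellFoundedLT.induction with | _ a ih
  exact eq_of_forall_lt_iff fun c => lt_pi.trans
    ⟨fun ⟨b, _, h2, e⟩ => e ▸ (pi_le H b).trans_lt h2,
      fun e => ⟨c, h e, e, ih c e ((Iio_subset_Iio e.le).trans h)⟩⟩

theorem pi_succ {H : Set Ordinal} {a : Ordinal} (h : a ∈ H) : pi H (a + 1) = pi H a + 1 :=
  eq_of_forall_lt_iff fun c => by
    rw [lt_pi, Order.lt_add_one_iff, le_iff_lt_or_eq, lt_pi]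
    constructor
    · rintro ⟨b, h1, h2, e⟩
      rcases (Order.lt_add_one_iff.1 h2).lt_or_eq with x | rfl
      exacts [Or.inl ⟨b, h1, x, e⟩, Or.inr e.symm]
    · rintro (⟨b, h1, h2, e⟩ | rfl)
      exacts [⟨b, h1, h2.trans (lt_add_one a), e⟩, ⟨a, h, lt_add_one a, rfl⟩]

theorem pi_image {K H : Set Ordinal} (h : K ⊆ H) {x : Ordinal} (hx : x ∈ H) :
    pi (pi H '' K) (pi H x) = pi K x := by
  induction x using WellFoundedLT.induction with | _ x ih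
  refine pi_ext ?_ fun y hy e => ⟨_, ⟨y, hy, rfl⟩, pi_lt (h hy) e, ih y e (h hy)⟩
  rintro _ ⟨y, hy, rfl⟩ e
  have := (pi_lt_iff (h hy) hx).1 e
  exact ⟨y, hy, this, (ih y this (h hy)).symm⟩

/-- The collapse of a term. -/
noncomputable def pt (H : Set Ordinal.{0}) (t : Tm) : Tm := t.map fun e => (pi H e.1, e.2)

theorem pt_in {H : Set Ordinal} {a : Ordinal} {u : Tm} (h : In H u) (h' : In (Iio a) u) :
    In (Iio (pi H a)) (pt H u) := fun e he => by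
  obtain ⟨x, hx, rfl⟩ := List.mem_map.1 he
  exact pi_lt (h x hx) (h' x hx)

theorem pt_ok {H : Set Ordinal} {a : Ordinal} {u : Tm} (h : In H u) (h' : Ok (Iio a) u) :
    Ok (Iio (pi H a)) (pt H u) := ⟨by simpa [pt] using h'.1, pt_in h h'.2⟩

theorem pt_lift {H : Set Ordinal} {a : Ordinal} {v : Tm} (h : Ok (Iio (pi H a)) v) :
    ∃ u, In H u ∧ Ok (Iio a) u ∧ pt H u = v := by
  suffices ∃ u, In H u ∧ In (Iio a) u ∧ pt H u = v by
    obtain ⟨u, h1, h2, rfl⟩ := this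
    exact ⟨u, h1, ⟨fun c => h.1 (by rw [c]; rfl), h2⟩, rfl⟩
  replace h := h.2
  induction v with
  | nil => exact ⟨[], in_nil, in_nil, rfl⟩
  | cons e v ih =>
    obtain ⟨u, h1, h2, rfl⟩ := ih (in_cons.1 h).2
    obtain ⟨b, h3, h4, h5⟩ := lt_pi.1 (in_cons.1 h).1
    exact ⟨(b, e.2) :: u, in_cons.2 ⟨h3, h1⟩, in_cons.2 ⟨h4, h2⟩, by simp [pt, h5]⟩

theorem pt_Lt {H : Set Ordinal} {u v : Tm} (hu : In H u) (h : Lt u v) : Lt (pt H u) (pt H v) := by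
  rw [Lt_iff] at h ⊢
  simp only [pt, List.length_map]
  refine h.imp_right fun ⟨h1, i, a, b, h2, h3, h4, h5⟩ => ⟨h1, i, (pi H a.1, a.2), (pi H b.1, b.2),
    by simp [h2], by simp [h3], h4.imp (pi_lt (hu a (List.mem_of_getElem? h2)))
      fun e => ⟨congrArg (pi H) e.1, e.2⟩, by rw [← List.map_take, ← List.map_take, h5]⟩

/-- The Mostowski collapse. -/
noncomputable def jj (X : Set ZFSet.{0}) : ZFSet.{0} → ZFSet.{0} :=
  ZFSet.mem_wf.fix fun x ih => ZFSet.range fun y : x.sep (· ∈ X) => ih y.1 (ZFSet.mem_sep.1 y.2).1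

theorem mem_jj {X : Set ZFSet} {x z : ZFSet} : z ∈ jj X x ↔ ∃ y ∈ x, y ∈ X ∧ jj X y = z := by
  rw [jj, WellFounded.fix_eq, ZFSet.mem_range]
  exact ⟨fun ⟨y, e⟩ => ⟨y, (ZFSet.mem_sep.1 y.2).1, (ZFSet.mem_sep.1 y.2).2, e⟩,
    fun ⟨y, h1, h2, e⟩ => ⟨⟨y, ZFSet.mem_sep.2 ⟨h1, h2⟩⟩, e⟩⟩

theorem jj_empty (X : Set ZFSet) : jj X ∅ = ∅ := ZFSet.ext fun z => by simp [mem_jj]

namespace Cl

variable {H : Set Ordinal.{0}} (h : Cl H)
include h

theorem W {a : Ordinal} (ha : a ∈ H) (φ : Fx) (p : List ZFSet) (hp : ∀ x ∈ p, x ∈ XS H)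
    (e : ∃ x ∈ L a, St (Iio a) φ (x :: p)) :
    ∃ u, In H u ∧ Ok (Iio a) u ∧ St (Iio a) φ (S u :: p) := by
  obtain ⟨k, r, h1, h2⟩ := exists_def a φ p hp
  obtain ⟨x, h3, h4⟩ := e
  obtain ⟨u, h5, rfl⟩ := mem_L.1 h3
  have := (wit_spec (t := (a, k) :: r) ⟨u, h5, (h2 _).2 ⟨h3, h4⟩⟩).1
  exact ⟨_, h.wit _ (ok_cons.2 ⟨ha, h1⟩), this.1, ((h2 _).1 this.2).2⟩

theorem W' {a : Ordinal} (ha : a ∈ H) (φ : Fx) (p : List ZFSet) (hp : ∀ x ∈ p, x ∈ XS H)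
    (e : ∃ x ∈ L a, St (Iio a) φ (x :: p)) : ∃ x ∈ XS H, St (Iio a) φ (x :: p) :=
  let ⟨u, h1, h2, h3⟩ := h.W ha φ p hp e; ⟨_, ⟨u, ⟨h2.1, h1⟩, rfl⟩, h3⟩

theorem low {a : Ordinal} (ha : a ∈ H) {x : ZFSet} (hx : x ∈ XS H) (hx' : x ∈ L a) :
    ∃ u, In H u ∧ Ok (Iio a) u ∧ S u = x :=
  h.W ha (.eq 0 1) [x] (by simpa using hx) ⟨x, hx', rfl⟩

theorem sub {x y : ZFSet} (hx : x ∈ XS H) (hy : y ∈ XS H) (e : ∀ z ∈ XS H, z ∈ x → z ∈ y) :
    x ⊆ y := fun z hz => by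
  by_contra c
  obtain ⟨a, h1, h2⟩ := XS_sub hx
  obtain ⟨w, h3, h4⟩ := h.W' h1 (.and (.mem 0 1) (.neg (.mem 0 2))) [x, y] (by simp [hx, hy])
    ⟨z, h2 z hz, hz, c⟩
  exact h4.2 (e w h3 h4.1)

theorem j_inj {x : ZFSet} : ∀ {y : ZFSet}, x ∈ XS H → y ∈ XS H → jj (XS H) x = jj (XS H) y →
    x = y := by
  induction x using ZFSet.inductionOn with | _ x ih
  intro y hx hy e
  refine subset_antisymm (h.sub hx hy fun z h1 h2 => ?_) (h.sub hy hx fun z h1 h2 => ?_)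
  · obtain ⟨w, a, b, c⟩ := mem_jj.1 (e ▸ mem_jj.2 ⟨z, h2, h1, rfl⟩)
    exact ih z h2 h1 b c.symm ▸ a
  · obtain ⟨w, a, b, c⟩ := mem_jj.1 (e.symm ▸ mem_jj.2 ⟨z, h2, h1, rfl⟩)
    exact ih w a b h1 c ▸ a

theorem j_eq {x y : ZFSet} (hx : x ∈ XS H) (hy : y ∈ XS H) :
    jj (XS H) x = jj (XS H) y ↔ x = y := ⟨h.j_inj hx hy, congrArg _⟩

theorem j_mem {x y : ZFSet} (hx : x ∈ XS H) : jj (XS H) x ∈ jj (XS H) y ↔ x ∈ y :=
  mem_jj.trans ⟨fun ⟨_, a, b, c⟩ => h.j_inj b hx c ▸ a, fun e => ⟨x, e, hx, rfl⟩⟩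

theorem j_pair {x y : ZFSet} (hx : x ∈ XS H) (hy : y ∈ XS H) :
    jj (XS H) (ZFSet.pair x y) = ZFSet.pair (jj (XS H) x) (jj (XS H) y) := by
  have key : ∀ x ∈ XS H, ∀ y ∈ XS H, jj (XS H) {x, y} = {jj (XS H) x, jj (XS H) y} :=
    fun x hx y hy => ZFSet.ext fun z => by simp [mem_jj, or_and_right, exists_or, hx, hy, eq_comm]
  have k2 : jj (XS H) {x} = {jj (XS H) x} := by simpa using key x hx x hx
  rw [ZFSet.pair, key _ (h.toSc.sing hx) _ (h.toSc.insert hx (h.toSc.sing hy)), key x hx y hy, k2]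
  rfl

theorem ord {b : Ordinal} (hb : b.toZFSet ∈ XS H) : b ∈ H := by
  obtain ⟨a, ⟨h1, h2⟩, h3⟩ := wellFounded_lt.has_min {a | a ∈ H ∧ b.toZFSet ∈ L a}
    (let ⟨a, h1, h2⟩ := h.toSc.level [b.toZFSet] (by simpa using hb); ⟨a, h1, h2 _ (by simp)⟩)
  obtain ⟨_ | ⟨e, r⟩, h4, h5, h6⟩ := h.low h1 hb h2
  · exact (h5.1 rfl).elim
  rcases (le_of_forall_lt fun c hc => ord_L.1 (mem_S.1 (h6 ▸ toZFSet_mem_toZFSet_iff.2 hc)).1 :
    b ≤ e.1).lt_or_eq with c | c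
  · exact (h3 _ ⟨(in_cons.1 h4).1, ord_L.2 c⟩ (ok_cons.1 h5).1).elim
  · exact c ▸ (in_cons.1 h4).1

theorem j_ord {a : Ordinal} : jj (XS H) a.toZFSet = (pi H a).toZFSet := by
  induction a using WellFoundedLT.induction with | _ a ih
  ext z
  simp only [mem_jj, mem_toZFSet_iff, lt_pi]
  constructor
  · rintro ⟨_, ⟨b, h1, rfl⟩, h2, rfl⟩
    exact ⟨_, ⟨b, h.ord h2, h1, rfl⟩, (ih b h1).symm⟩
  · rintro ⟨_, ⟨b, h1, h2, rfl⟩, rfl⟩
    exact ⟨_, ⟨b, h2, rfl⟩, ord_XS h1, ih b h2⟩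

theorem omega_sub : Iio omega0 ⊆ H := fun _ hx => let ⟨n, e⟩ := lt_omega0.1 hx; e ▸ h.toSc.nat n

theorem j_nat (n : ℕ) : jj (XS H) (nat n) = nat n := by
  rw [nat_eq, h.j_ord, pi_fix ((Iio_subset_Iio (natCast_lt_omega0 n).le).trans h.omega_sub)]

theorem nat_XS (n : ℕ) : nat n ∈ XS H := nat_eq n ▸ ord_XS (h.toSc.nat n)

theorem j_tc {t : Tm} (ht : In H t) : jj (XS H) (tc t) = tc (pt H t) := by
  have key : ∀ (i : ℕ) e, t[i]? = some e → jj (XS H) (ZFSet.pair (nat i) (ZFSet.pair e.1.toZFSet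
      (nat e.2))) = ZFSet.pair (nat i) (ZFSet.pair (pi H e.1).toZFSet (nat e.2)) := fun i e he => by
    have := ord_XS (ht e (List.mem_of_getElem? he))
    rw [h.j_pair (h.nat_XS _) (h.toSc.pair this (h.nat_XS _)), h.j_pair this (h.nat_XS _),
      h.j_nat, h.j_nat, h.j_ord]
  ext z
  simp only [mem_jj, mem_tc, pt, List.getElem?_map, Option.map_eq_some_iff]
  constructor
  · rintro ⟨_, ⟨i, e, h1, rfl⟩, -, rfl⟩
    exact ⟨i, _, ⟨e, h1, rfl⟩, (key i e h1).symm⟩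
  · rintro ⟨i, _, ⟨e, h1, rfl⟩, rfl⟩
    exact ⟨_, ⟨i, e, h1, rfl⟩, h.toSc.entry _ _ (ht e (List.mem_of_getElem? h1)), key i e h1⟩

theorem tc_in {t : Tm} (ht : tc t ∈ XS H) : In H t := fun e he => by
  obtain ⟨i, hi⟩ := List.mem_iff_getElem?.1 he
  obtain ⟨c, h1, h2⟩ := h.toSc.level [_] (by simpa using ht)
  have h3 := pair_L (L_trans (h2 _ (by simp)) (pair_mem_tc.2 hi))
  obtain ⟨x, h4, h5⟩ := h.W' h1 (.ex (.and (.pr 0 1 4) (.ap 2 3 0))) [tc t, nat i, nat e.2]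
    (by simp [ht, h.nat_XS]) ⟨_, (pair_L h3.2).1, St_ex.2 ⟨_, mem_L.1 h3.2, rfl, pair_mem_tc.2 hi⟩⟩
  obtain ⟨v, -, h6, h7⟩ := St_ex.1 h5
  simp only [Sx, List.getD_cons_zero, List.getD_cons_succ] at h6 h7
  obtain ⟨k, e', h8, h9⟩ := mem_tc.1 h7
  simp only [h6, ZFSet.pair_inj] at h9
  rw [nat_inj h9.1, hi, Option.some_inj] at h8
  exact h.ord (h8 ▸ h9.2.1 ▸ h4)

theorem satj {a : Ordinal} (ha : a ∈ H)
    (ih : ∀ u, In H u → Ok (Iio a) u → jj (XS H) (S u) = S (pt H u)) (φ : Fx) :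
    ∀ p : List ZFSet, (∀ x ∈ p, x ∈ XS H) →
      (St (Iio a) φ p ↔ St (Iio (pi H a)) φ (p.map (jj (XS H)))) := by
  have gd : ∀ (p : List ZFSet) i, (p.map (jj (XS H))).getD i ∅ = jj (XS H) (p.getD i ∅) :=
    fun p i => by rw [← List.getD_map (f := jj (XS H)), jj_empty]
  induction φ with
  | mem i j => exact fun p hp => by simp only [St, Sx, gd, h.j_mem (getD_XS h.toSc hp _)]
  | eq i j =>
    exact fun p hp => by simp only [St, Sx, gd, h.j_eq (getD_XS h.toSc hp _) (getD_XS h.toSc hp _)]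
  | pr i j k =>
    intro p hp
    have := getD_XS h.toSc hp
    simp only [St, Sx, gd, ← h.j_pair (this _) (this _),
      h.j_eq (this _) (h.toSc.pair (this _) (this _))]
  | ap i j k =>
    intro p hp
    have := getD_XS h.toSc hp
    simp only [St, Sx, gd, ← h.j_pair (this _) (this _), h.j_mem (h.toSc.pair (this _) (this _))]
  | lev i =>
    intro p hp
    have := getD_XS h.toSc hp i
    simp only [St, Sx, gd]
    constructor
    · rintro ⟨b, h1, h2⟩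
      exact ⟨_, pi_lt (h.ord (h2 ▸ this)) h1, by rw [h2, h.j_ord]⟩
    · rintro ⟨_, h1, h2⟩
      obtain ⟨b, h3, h4, rfl⟩ := lt_pi.1 h1
      exact ⟨b, h4, h.j_inj this (ord_XS h3) (h2.trans h.j_ord.symm)⟩
  | ev i j =>
    intro p hp
    have := getD_XS h.toSc hp
    simp only [St, Sx, gd]
    constructor
    · rintro ⟨t, h1, h2, h3⟩
      have h4 := h.tc_in (h2 ▸ this i)
      exact ⟨_, pt_ok h4 h1, by rw [h2, h.j_tc h4], by rw [h3, ih t h4 h1]⟩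
    · rintro ⟨_, h1, h2, h3⟩
      obtain ⟨u, h4, h5, rfl⟩ := pt_lift h1
      exact ⟨u, h5, h.j_inj (this i) (h.toSc.tc h4) (h2.trans (h.j_tc h4).symm),
        h.j_inj (this j) ⟨u, ⟨h5.1, h4⟩, rfl⟩ (h3.trans (ih u h4 h5).symm)⟩
  | neg φ ih' => exact fun p hp => not_congr (ih' p hp)
  | and φ ψ ih' ih'' => exact fun p hp => and_congr (ih' p hp) (ih'' p hp)
  | ex φ ih' =>
    intro p hp
    constructor
    · intro e
      obtain ⟨x, h1, h2⟩ := St_ex.1 e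
      obtain ⟨u, h3, h4, h5⟩ := h.W ha φ p hp ⟨x, mem_L.2 h1, h2⟩
      refine ⟨_, pt_ok h3 h4, ?_⟩
      rw [← ih u h3 h4]
      exact (ih' _ (List.forall_mem_cons.2 ⟨⟨u, ⟨h4.1, h3⟩, rfl⟩, hp⟩)).1 h5
    · rintro ⟨_, h1, h2⟩
      obtain ⟨u, h3, h4, rfl⟩ := pt_lift h1
      rw [← ih u h3 h4] at h2
      exact ⟨u, h4, (ih' _ (List.forall_mem_cons.2 ⟨⟨u, ⟨h4.1, h3⟩, rfl⟩, hp⟩)).2 h2⟩

theorem vals_pt (c : Ordinal) : ∀ t, In H t → In (Iio c) t →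
    vals (pt H t) = (vals t).map (jj (XS H)) := by
  induction c using WellFoundedLT.induction with | _ c ih
  intro t h1 h2
  induction t with
  | nil => rfl
  | cons e r ih' =>
    have ha := (in_cons.1 h1).1
    have h3 := ih' (in_cons.1 h1).2 (in_cons.1 h2).2
    have h4 : ∀ u, In H u → Ok (Iio e.1) u → jj (XS H) (S u) = S (pt H u) := fun u a b => by
      obtain _ | ⟨x, u⟩ := u
      · exact (b.1 rfl).elim
      · exact (List.cons.inj (ih _ (in_cons.1 h2).1 _ a b.2)).1.symm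
    have h5 : ∀ y ∈ XS H, St (Iio e.1) (dec e.2).1 (y :: sel (dec e.2).2 (vals r)) ↔
        St (Iio (pi H e.1)) (dec e.2).1 (jj (XS H) y :: sel (dec e.2).2 (vals (pt H r))) :=
      fun y hy => by
        rw [h.satj ha h4 _ _ (List.forall_mem_cons.2
          ⟨hy, fun x hx => vals_mem (in_cons.1 h1).2 x (mem_sel hx)⟩), h3]
        simp [sel, List.map_filterMap]
    show vals ((pi H e.1, e.2) :: pt H r) = _
    rw [vals_cons, vals_cons, h3, List.map_cons]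
    congr 1
    ext z
    rw [mem_S, mem_jj]
    constructor
    · rintro ⟨a1, a2⟩
      obtain ⟨_, a3, rfl⟩ := mem_L.1 a1
      obtain ⟨u, a4, a5, rfl⟩ := pt_lift a3
      rw [← h4 u a4 a5] at a2 ⊢
      have : S u ∈ XS H := ⟨u, ⟨a5.1, a4⟩, rfl⟩
      exact ⟨_, mem_S.2 ⟨mem_L.2 ⟨u, a5, rfl⟩, (h5 _ this).2 a2⟩, this, rfl⟩
    · rintro ⟨y, a1, a2, rfl⟩
      obtain ⟨u, a3, a4, rfl⟩ := h.low ha a2 (mem_S.1 a1).1
      exact ⟨h4 u a3 a4 ▸ mem_L.2 ⟨_, pt_ok a3 a4, rfl⟩, (h5 _ a2).1 (mem_S.1 a1).2⟩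

/-- Condensation. -/
theorem j_S {t : Tm} (ht : In H t) : jj (XS H) (S t) = S (pt H t) := by
  obtain ⟨c, -, hc⟩ := sc_univ.bound (t.map Prod.fst) fun _ _ => trivial
  obtain _ | ⟨x, u⟩ := t
  · exact jj_empty _
  · exact (List.cons.inj (h.vals_pt c _ ht fun e he => hc _ (List.mem_map_of_mem he))).1.symm

theorem j_L {a : Ordinal} (ha : a ∈ H) {y : ZFSet} :
    y ∈ L (pi H a) ↔ ∃ x ∈ XS H, x ∈ L a ∧ jj (XS H) x = y := by
  constructor
  · intro e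
    obtain ⟨_, a3, rfl⟩ := mem_L.1 e
    obtain ⟨u, a4, a5, rfl⟩ := pt_lift a3
    exact ⟨_, ⟨u, ⟨a5.1, a4⟩, rfl⟩, mem_L.2 ⟨u, a5, rfl⟩, h.j_S a4⟩
  · rintro ⟨x, a1, a2, rfl⟩
    obtain ⟨u, a3, a4, rfl⟩ := h.low ha a1 a2
    exact h.j_S a3 ▸ mem_L.2 ⟨_, pt_ok a3 a4, rfl⟩

theorem st {a : Ordinal} (ha : a ∈ H) (φ : Fx) (p : List ZFSet) (hp : ∀ x ∈ p, x ∈ XS H) :
    St (Iio a) φ p ↔ St (Iio (pi H a)) φ (p.map (jj (XS H))) :=
  h.satj ha (fun _ e _ => h.j_S e) φ p hp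

theorem wit_pt {t : Tm} (ht : Ok H t) : Constr.wit (pt H t) = pt H (Constr.wit t) := by
  have e : hd (pt H t) = pi H (hd t) := by
    obtain _ | ⟨x, u⟩ := t
    · exact (ht.1 rfl).elim
    · rfl
  have k1 : ∀ u, In H u → Ok (Iio (hd t)) u → (Cand t u ↔ Cand (pt H t) (pt H u)) := fun u a b => by
    rw [Cand, Cand, e, ← h.j_S a, ← h.j_S ht.2, h.j_mem ⟨u, ⟨b.1, a⟩, rfl⟩]
    exact and_congr_left fun _ => iff_of_true b (pt_ok a b)
  have k2 : ∀ v, Cand (pt H t) v → ∃ u, In H u ∧ Cand t u ∧ pt H u = v := fun v hv => by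
    obtain ⟨u, a, b, rfl⟩ := pt_lift (e ▸ hv.1)
    exact ⟨u, a, (k1 u a b).2 hv, rfl⟩
  rcases wit_eq.1 (rfl : Constr.wit t = _) with c | c
  · refine wit_eq.2 (Or.inl ⟨(k1 _ (h.wit t ht) c.1.1).1 c.1, fun v hv d => ?_⟩)
    obtain ⟨u, a, b, rfl⟩ := k2 v hv
    rcases trichotomous_of Lt u (Constr.wit t) with x | x | x
    · exact c.2 u b x
    · exact irrefl_of Lt _ (x ▸ d)
    · exact asymm_of Lt d (pt_Lt (h.wit t ht) x)
  · exact wit_eq.2 (Or.inr ⟨fun v hv => let ⟨u, _, b, _⟩ := k2 v hv; c.1 u b, by rw [c.2]; rfl⟩)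

end Cl

/-- One closure step. -/
def step (A : Set Ordinal.{0}) : Set Ordinal.{0} :=
  {x | x ∈ A ∨ x = 0 ∨ (∃ a ∈ A, x = a + 1) ∨ ∃ t, Ok A t ∧ ∃ e ∈ wit t, e.1 = x}

/-- The closure of a set of ordinals. -/
def cl (A : Set Ordinal.{0}) : Set Ordinal.{0} := {x | ∃ n, x ∈ step^[n] A}

theorem step_mono : Monotone step := fun _ _ h _ hx => hx.imp (@h _) (Or.imp_right (Or.imp
  (fun ⟨a, h1, h2⟩ => ⟨a, h h1, h2⟩) fun ⟨t, h1, h2⟩ => ⟨t, h1.mono h, h2⟩))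

theorem iter_mono (A : Set Ordinal) : Monotone fun n => step^[n] A :=
  monotone_nat_of_le_succ fun n => by rw [iterate_succ_apply']; exact fun _ => Or.inl

theorem subset_cl {A : Set Ordinal} : A ⊆ cl A := fun _ h => ⟨0, h⟩

theorem cl_cl (A : Set Ordinal) : Cl (cl A) where
  zero := ⟨1, Or.inr (Or.inl rfl)⟩
  succ a := fun ⟨n, h⟩ => ⟨n + 1, by
    rw [iterate_succ_apply']; exact Or.inr (Or.inr (Or.inl ⟨a, h, rfl⟩))⟩
  wit t ht e he := by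
    obtain ⟨n, hn⟩ : ∃ n, In (step^[n] A) t := by
      have := ht.2
      clear ht he
      induction t with
      | nil => exact ⟨0, in_nil⟩
      | cons x t ih =>
        obtain ⟨n, hn⟩ := ih (in_cons.1 this).2
        obtain ⟨m, hm⟩ := (in_cons.1 this).1
        exact ⟨max m n, in_cons.2 ⟨iter_mono A (le_max_left _ _) hm,
          hn.mono (iter_mono A (le_max_right _ _))⟩⟩
    exact ⟨n + 1, by
      rw [iterate_succ_apply']; exact Or.inr (Or.inr (Or.inr ⟨t, ⟨ht.1, hn⟩, e, he, rfl⟩))⟩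

theorem Cl.step_sub {H : Set Ordinal} (h : Cl H) : step H ⊆ H := by
  rintro x (e | rfl | ⟨a, e, rfl⟩ | ⟨t, h1, e, h2, rfl⟩)
  exacts [e, h.zero, h.succ a e, h.wit t h1 e h2]

theorem Cl.iter_sub {A H : Set Ordinal} (h : Cl H) (e : A ⊆ H) (n : ℕ) : step^[n] A ⊆ H := by
  induction n with
  | zero => exact e
  | succ n ih => rw [iterate_succ_apply']; exact (step_mono ih).trans h.step_sub

theorem Cl.cl_sub {A H : Set Ordinal} (h : Cl H) (e : A ⊆ H) : cl A ⊆ H :=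
  fun _ ⟨n, hn⟩ => h.iter_sub e n hn

theorem cl_mono {A B : Set Ordinal} (h : A ⊆ B) : cl A ⊆ cl B :=
  (cl_cl B).cl_sub (h.trans subset_cl)

theorem cl_Iio {a : Ordinal} (h : Sc (Iio a)) : Cl (Iio a) where
  toSc := h
  wit t ht e he := by
    obtain _ | ⟨x, t⟩ := t
    · exact (ht.1 rfl).elim
    · exact lt_trans (b := x.1) (wit_in _ e he) (ok_cons.1 ht).1

theorem cl_fin {A : Set Ordinal} {x : Ordinal} (h : x ∈ cl A) :
    ∃ l : List Ordinal, (∀ a ∈ l, a ∈ A) ∧ x ∈ cl {a | a ∈ l} := by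
  refine Cl.cl_sub (H := {x | ∃ l : List Ordinal, (∀ a ∈ l, a ∈ A) ∧ x ∈ cl {a | a ∈ l}})
    ⟨⟨⟨[], by simp, (cl_cl _).zero⟩, fun a ⟨l, h1, h2⟩ => ⟨l, h1, (cl_cl _).succ a h2⟩⟩,
      fun t ht e he => ?_⟩ (fun a ha => ⟨[a], by simpa using ha, subset_cl (by simp)⟩) h
  obtain ⟨l, h1, h2⟩ : ∃ l : List Ordinal, (∀ a ∈ l, a ∈ A) ∧ In (cl {a | a ∈ l}) t := by
    have := ht.2
    clear ht he
    induction t with
    | nil => exact ⟨[], by simp, in_nil⟩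
    | cons x t ih =>
      obtain ⟨l, h1, h2⟩ := ih (in_cons.1 this).2
      obtain ⟨m, h3, h4⟩ := (in_cons.1 this).1
      exact ⟨m ++ l, List.forall_mem_append.2 ⟨h3, h1⟩, in_cons.2
        ⟨cl_mono (fun _ => List.mem_append_left _) h4,
          h2.mono (cl_mono fun _ => List.mem_append_right _)⟩⟩
  exact ⟨l, h1, (cl_cl _).wit t ⟨ht.1, h2⟩ e he⟩

theorem Cl.step_image {A H : Set Ordinal} (h : Cl H) (e : A ⊆ H) :
    pi H '' step A = step (pi H '' A) := by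
  have z : pi H 0 = 0 := pi_fix (by simp)
  ext y
  constructor
  · rintro ⟨x, c | rfl | ⟨a, c, rfl⟩ | ⟨t, h1, x, h2, rfl⟩, rfl⟩
    · exact Or.inl ⟨x, c, rfl⟩
    · exact Or.inr (Or.inl z)
    · exact Or.inr (Or.inr (Or.inl ⟨_, ⟨a, c, rfl⟩, pi_succ (e c)⟩))
    · refine Or.inr (Or.inr (Or.inr ⟨pt H t, ⟨by simpa [pt] using h1.1, fun y hy => ?_⟩,
        (pi H x.1, x.2), h.wit_pt (h1.mono e) ▸ List.mem_map_of_mem h2, rfl⟩))
      obtain ⟨w, a, rfl⟩ := List.mem_map.1 hy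
      exact ⟨_, h1.2 w a, rfl⟩
  · rintro (⟨x, c, rfl⟩ | rfl | ⟨_, ⟨a, c, rfl⟩, rfl⟩ | ⟨t, h1, x, h2, rfl⟩)
    · exact ⟨x, Or.inl c, rfl⟩
    · exact ⟨0, Or.inr (Or.inl rfl), z⟩
    · exact ⟨_, Or.inr (Or.inr (Or.inl ⟨a, c, rfl⟩)), pi_succ (e c)⟩
    · obtain ⟨u, h3, rfl⟩ : ∃ u, In A u ∧ pt H u = t := by
        have := h1.2
        clear h1 h2
        induction t with
        | nil => exact ⟨[], in_nil, rfl⟩
        | cons x t ih =>
          obtain ⟨u, h1, rfl⟩ := ih (in_cons.1 this).2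
          obtain ⟨a, h2, h3⟩ := (in_cons.1 this).1
          exact ⟨(a, x.2) :: u, in_cons.2 ⟨h2, h1⟩, by simp [pt, h3]⟩
      have h4 : Ok A u := ⟨fun c => h1.1 (by rw [c]; rfl), h3⟩
      rw [h.wit_pt (h4.mono e)] at h2
      obtain ⟨w, a, rfl⟩ := List.mem_map.1 h2
      exact ⟨_, Or.inr (Or.inr (Or.inr ⟨u, h4, w, a, rfl⟩)), rfl⟩

theorem Cl.cl_image {A H : Set Ordinal} (h : Cl H) (e : A ⊆ H) :
    pi H '' cl A = cl (pi H '' A) := by
  have : ∀ n, pi H '' step^[n] A = step^[n] (pi H '' A) := fun n => by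
    induction n with
    | zero => rfl
    | succ n ih => rw [iterate_succ_apply', iterate_succ_apply', h.step_image (h.iter_sub e n), ih]
  ext y
  simp only [cl, mem_image, mem_ofPred_eq, ← this]
  exact ⟨fun ⟨x, ⟨n, a⟩, b⟩ => ⟨n, x, a, b⟩, fun ⟨n, x, a, b⟩ => ⟨x, ⟨n, a⟩, b⟩⟩

theorem Cl.comm {A H : Set Ordinal} (h : Cl H) (e : A ⊆ H) {x : Ordinal} (hx : x ∈ H) :
    pi (cl (pi H '' A)) (pi H x) = pi (cl A) x := by
  rw [← h.cl_image e, pi_image (h.cl_sub e) hx]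

end Pool.Agent.Shared.Constr
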