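import Pool.Agent.Shared.InModel.Card

/-!
A constructible hierarchy given by terms. A term is a list of instructions; each instruction has
an ordinal level and a number coding a formula together with a selection of earlier values.
-/

namespace Pool.Agent.Shared.Constr

open Function Set Ordinal Pool.Agent.Lib.MP_053343_lc

inductive Fx : Type
  | mem (i j : ℕ) : Fx
  | eq (i j : ℕ) : Fx
  | pr (i j k : ℕ) : Fx
  | ap (i j k : ℕ) : Fx
  | lev (i : ℕ) : Fx
  | ev (i j : ℕ) : Fx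
  | neg (φ : Fx) : Fx
  | and (φ ψ : Fx) : Fx
  | ex (φ : Fx) : Fx
  deriving Countable

instance : Nonempty Fx := ⟨.lev 0⟩

abbrev Tm : Type 1 := List (Ordinal.{0} × ℕ)

def In (B : Set Ordinal.{0}) (t : Tm) : Prop := ∀ e ∈ t, e.1 ∈ B

def Ok (B : Set Ordinal.{0}) (t : Tm) : Prop := t ≠ [] ∧ In B t

theorem In.mono {A B : Set Ordinal} {t : Tm} (h : In A t) (e : A ⊆ B) : In B t :=
  fun x hx => e (h x hx)

theorem Ok.mono {A B : Set Ordinal} {t : Tm} (h : Ok A t) (e : A ⊆ B) : Ok B t := ⟨h.1, h.2.mono e⟩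

@[simp] theorem in_nil {B : Set Ordinal} : In B [] := fun _ h => by cases h

@[simp] theorem in_cons {B : Set Ordinal} {e : Ordinal × ℕ} {t : Tm} :
    In B (e :: t) ↔ e.1 ∈ B ∧ In B t := List.forall_mem_cons

@[simp] theorem ok_cons {B : Set Ordinal} {e : Ordinal × ℕ} {t : Tm} :
    Ok B (e :: t) ↔ e.1 ∈ B ∧ In B t := by simp [Ok]

/-- The set coding a term. -/
noncomputable def tc (t : Tm) : ZFSet.{0} :=
  ZFSet.range fun i : Fin t.length => ZFSet.pair (nat i) (ZFSet.pair t[i].1.toZFSet (nat t[i].2))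

theorem mem_tc {t : Tm} {z : ZFSet} : z ∈ tc t ↔ ∃ i e, t[i]? = some e ∧
    ZFSet.pair (nat i) (ZFSet.pair e.1.toZFSet (nat e.2)) = z := by
  simp only [tc, ZFSet.mem_range, List.getElem?_eq_some_iff]
  exact ⟨fun ⟨i, h⟩ => ⟨i, _, ⟨i.2, rfl⟩, h⟩, fun ⟨i, _, ⟨h, e⟩, h'⟩ => ⟨⟨i, h⟩, e ▸ h'⟩⟩

theorem pair_mem_tc {t : Tm} {i : ℕ} {e : Ordinal × ℕ} :
    ZFSet.pair (nat i) (ZFSet.pair e.1.toZFSet (nat e.2)) ∈ tc t ↔ t[i]? = some e := by
  refine ⟨fun h => ?_, fun h => mem_tc.2 ⟨i, e, h, rfl⟩⟩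
  obtain ⟨j, e', h1, h2⟩ := mem_tc.1 h
  simp only [ZFSet.pair_inj, toZFSet_injective.eq_iff] at h2
  rw [← nat_inj h2.1, h1, Prod.ext h2.2.1 (nat_inj h2.2.2)]

theorem tc_inj : Injective tc := fun a b h =>
  List.ext_getElem? fun i => Option.ext fun e => by rw [← pair_mem_tc, h, pair_mem_tc]

def Sx (val : Tm → ZFSet.{0}) (B : Set Ordinal.{0}) : Fx → List ZFSet.{0} → Prop
  | .mem i j, l => l.getD i ∅ ∈ l.getD j ∅
  | .eq i j, l => l.getD i ∅ = l.getD j ∅
  | .pr i j k, l => l.getD i ∅ = ZFSet.pair (l.getD j ∅) (l.getD k ∅)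
  | .ap i j k, l => ZFSet.pair (l.getD j ∅) (l.getD k ∅) ∈ l.getD i ∅
  | .lev i, l => ∃ b ∈ B, l.getD i ∅ = b.toZFSet
  | .ev i j, l => ∃ t, Ok B t ∧ l.getD i ∅ = tc t ∧ l.getD j ∅ = val t
  | .neg φ, l => ¬ Sx val B φ l
  | .and φ ψ, l => Sx val B φ l ∧ Sx val B ψ l
  | .ex φ, l => ∃ t, Ok B t ∧ Sx val B φ (val t :: l)

theorem Sx_congr {v w : Tm → ZFSet} {B : Set Ordinal} (h : ∀ t, Ok B t → v t = w t) (φ : Fx) :
    ∀ l, Sx v B φ l ↔ Sx w B φ l := by
  induction φ with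
  | ev i j => exact fun l => exists_congr fun t => and_congr_right fun ht => by rw [h t ht]
  | neg φ ih => exact fun l => not_congr (ih l)
  | and φ ψ ih ih' => exact fun l => and_congr (ih l) (ih' l)
  | ex φ ih => exact fun l => exists_congr fun t => and_congr_right fun ht => by rw [h t ht, ih]
  | _ => exact fun _ => Iff.rfl

noncomputable def dec : ℕ → Fx × List ℕ := (exists_surjective_nat _).choose

theorem dec_surj : Surjective dec := (exists_surjective_nat _).choose_spec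

def sel (js : List ℕ) (env : List ZFSet.{0}) : List ZFSet.{0} := js.filterMap (env[·]?)

def valsW (st : Ordinal.{0} → ℕ → List ZFSet.{0} → ZFSet.{0}) : Tm → List ZFSet.{0}
  | [] => []
  | e :: r => st e.1 e.2 (valsW st r) :: valsW st r

instance (a : Ordinal.{0}) : Small.{0} {t // Ok (Iio a) t} := by
  refine small_of_injective (β := List (Iio a × ℕ))
    (f := fun t => t.1.pmap (fun e h => (⟨e.1, h⟩, e.2)) t.2.2) fun s t h => Subtype.ext ?_
  simpa [List.map_pmap] using congrArg (List.map fun e : Iio a × ℕ => (e.1.1, e.2)) h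

noncomputable def lvW (val : Tm → ZFSet.{0}) (a : Ordinal.{0}) : ZFSet.{0} :=
  ZFSet.range fun t : {t // Ok (Iio a) t} => val t.1

noncomputable def stW (val : Tm → ZFSet.{0}) (a : Ordinal.{0}) (k : ℕ) (env : List ZFSet.{0}) :
    ZFSet.{0} :=
  (lvW val a).sep fun x => Sx val (Iio a) (dec k).1 (x :: sel (dec k).2 env)

noncomputable def stage : Ordinal.{0} → ℕ → List ZFSet.{0} → ZFSet.{0} :=
  wellFounded_lt.fix fun a ih =>
    stW (fun t => (valsW (fun b => if h : b < a then ih b h else fun _ _ => ∅) t).headD ∅) a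

/-- The values of all the instructions of a term. -/
noncomputable def vals : Tm → List ZFSet.{0} := valsW stage

/-- The value of a term. -/
noncomputable def S (t : Tm) : ZFSet.{0} := (vals t).headD ∅

/-- The levels of the hierarchy. -/
noncomputable def L (a : Ordinal.{0}) : ZFSet.{0} := lvW S a

/-- Satisfaction with quantifiers ranging over values of terms with levels in `B`. -/
abbrev St (B : Set Ordinal.{0}) (φ : Fx) (l : List ZFSet.{0}) : Prop := Sx S B φ l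

theorem valsW_congr {s s' : Ordinal → ℕ → List ZFSet → ZFSet} {t : Tm}
    (h : ∀ e ∈ t, s e.1 = s' e.1) : valsW s t = valsW s' t := by
  induction t with
  | nil => rfl
  | cons e r ih =>
    rw [valsW, valsW, ih fun x hx => h x (List.mem_cons_of_mem _ hx), h e List.mem_cons_self]

theorem stage_eq (a : Ordinal) : stage a = stW S a := by
  rw [stage, WellFounded.fix_eq]
  have : ∀ t, Ok (Iio a) t → (valsW (fun b => if b < a then stage b else fun _ _ => ∅) t).headD ∅ =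
      S t := fun t ht => by
    rw [S, vals, valsW_congr fun e he => if_pos (ht.2 e he)]
  funext k env
  simp only [stW, lvW]
  congr 1
  · exact funext fun x => propext (Sx_congr this _ _)
  · exact congrArg _ (funext fun t => this _ t.2)

theorem vals_cons (e : Ordinal × ℕ) (r : Tm) : vals (e :: r) = S (e :: r) :: vals r := rfl

theorem mem_S {e : Ordinal × ℕ} {r : Tm} {x : ZFSet} : x ∈ S (e :: r) ↔
    x ∈ L e.1 ∧ St (Iio e.1) (dec e.2).1 (x :: sel (dec e.2).2 (vals r)) := by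
  show x ∈ stage e.1 e.2 (vals r) ↔ _
  rw [stage_eq, stW, ZFSet.mem_sep, L]

/-- The values of terms with levels in `B`. -/
def XS (B : Set Ordinal.{0}) : Set ZFSet.{0} := {x | ∃ t, Ok B t ∧ S t = x}

theorem XS_mono {A B : Set Ordinal} (h : A ⊆ B) : XS A ⊆ XS B :=
  fun _ ⟨t, h1, h2⟩ => ⟨t, h1.mono h, h2⟩

theorem mem_L {a : Ordinal} {x : ZFSet} : x ∈ L a ↔ x ∈ XS (Iio a) := by
  simp [L, lvW, XS]

theorem St_ex {B : Set Ordinal} {φ : Fx} {l : List ZFSet} :
    St B (.ex φ) l ↔ ∃ x ∈ XS B, St B φ (x :: l) :=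
  ⟨fun ⟨t, h1, h2⟩ => ⟨_, ⟨t, h1, rfl⟩, h2⟩, fun ⟨_, ⟨t, h1, e⟩, h2⟩ => ⟨t, h1, e ▸ h2⟩⟩

theorem L_mono {a b : Ordinal} (h : a ≤ b) {x : ZFSet} (hx : x ∈ L a) : x ∈ L b :=
  mem_L.2 (XS_mono (Iio_subset_Iio h) (mem_L.1 hx))

theorem XS_sub {B : Set Ordinal} {x : ZFSet} (h : x ∈ XS B) : ∃ a ∈ B, ∀ y ∈ x, y ∈ L a := by
  obtain ⟨_ | ⟨e, r⟩, h1, rfl⟩ := h
  · exact (h1.1 rfl).elim
  · exact ⟨e.1, (ok_cons.1 h1).1, fun y hy => (mem_S.1 hy).1⟩

theorem L_trans {a : Ordinal} {x y : ZFSet} (hx : x ∈ L a) (hy : y ∈ x) : y ∈ L a :=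
  let ⟨_, h1, h2⟩ := XS_sub (mem_L.1 hx); L_mono (le_of_lt h1) (h2 y hy)

theorem rank_lt {a : Ordinal} : ∀ {x : ZFSet}, x ∈ L a → x.rank < a := by
  induction a using WellFoundedLT.induction with | _ a ih
  intro x hx
  obtain ⟨b, h1, h2⟩ := XS_sub (mem_L.1 hx)
  exact (ZFSet.rank_le_iff.2 fun y hy => ih b h1 (h2 y hy)).trans_lt h1

theorem vals_length (t : Tm) : (vals t).length = t.length := by
  induction t with
  | nil => rfl
  | cons e r ih => simp [vals_cons, ih]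

theorem vals_mem {B : Set Ordinal} {t : Tm} (h : In B t) : ∀ x ∈ vals t, x ∈ XS B := by
  induction t with
  | nil => simp [vals, valsW]
  | cons e r ih =>
    rw [vals_cons, List.forall_mem_cons]
    exact ⟨⟨_, ⟨by simp, h⟩, rfl⟩, ih (in_cons.1 h).2⟩

theorem mem_sel {js : List ℕ} {env : List ZFSet} {x : ZFSet} (h : x ∈ sel js env) : x ∈ env := by
  obtain ⟨j, -, h⟩ := List.mem_filterMap.1 h
  exact List.mem_of_getElem? h

theorem exists_trim (t u : Tm) :
    ∃ t' : Tm, t'.map Prod.fst = t.map Prod.fst ∧ vals (t' ++ u) = vals t ++ vals u := by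
  induction t with
  | nil => exact ⟨[], rfl, rfl⟩
  | cons e r ih =>
    obtain ⟨r', h1, h2⟩ := ih
    obtain ⟨k, hk⟩ := dec_surj ((dec e.2).1, (dec e.2).2.filter (· < r.length))
    refine ⟨(e.1, k) :: r', by simp [h1], ?_⟩
    rw [List.cons_append, vals_cons, vals_cons, h2, List.cons_append]
    congr 1
    ext x
    have : sel (List.filter (· < r.length) (dec e.2).2) (vals r ++ vals u) =
        sel (dec e.2).2 (vals r) := by
      rw [sel, sel, List.filterMap_filter]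
      refine List.filterMap_congr fun j _ => ?_
      by_cases h : j < r.length <;> simp [h, List.getElem?_append, vals_length]
    rw [mem_S, mem_S, hk, h2, this]

theorem exists_env {B : Set Ordinal} (p : List ZFSet) (hp : ∀ x ∈ p, x ∈ XS B) :
    ∃ u js, In B u ∧ sel js (vals u) = p := by
  induction p with
  | nil => exact ⟨[], [], in_nil, rfl⟩
  | cons x p ih =>
    obtain ⟨u, js, h1, h2⟩ := ih fun y hy => hp y (List.mem_cons_of_mem _ hy)
    obtain ⟨t, h3, rfl⟩ := hp x List.mem_cons_self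
    obtain ⟨t', h4, h5⟩ := exists_trim t u
    refine ⟨t' ++ u, 0 :: js.map (· + t.length), fun e he => ?_, ?_⟩
    · rcases List.mem_append.1 he with he | he
      · obtain ⟨e', a, b⟩ := List.mem_map.1 (h4 ▸ List.mem_map_of_mem (f := Prod.fst) he)
        exact b ▸ h3.2 e' a
      · exact h1 e he
    · obtain _ | ⟨e, r⟩ := t
      · exact (h3.1 rfl).elim
      · rw [h5, ← h2]
        simp [sel, vals_cons, List.filterMap_map, ← add_assoc, List.getElem?_append, vals_length]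

theorem exists_def {B : Set Ordinal} (a : Ordinal) (φ : Fx) (p : List ZFSet)
    (hp : ∀ x ∈ p, x ∈ XS B) :
    ∃ k u, In B u ∧ ∀ x, x ∈ S ((a, k) :: u) ↔ x ∈ L a ∧ St (Iio a) φ (x :: p) := by
  obtain ⟨u, js, h1, h2⟩ := exists_env p hp
  obtain ⟨k, hk⟩ := dec_surj (φ, js)
  exact ⟨k, u, h1, fun x => by rw [mem_S, hk, h2]⟩

theorem def_mem {B : Set Ordinal} {a : Ordinal} (ha : a ∈ B) (φ : Fx) (p : List ZFSet)
    (hp : ∀ x ∈ p, x ∈ XS B) {y : ZFSet} (h : ∀ x, x ∈ y ↔ x ∈ L a ∧ St (Iio a) φ (x :: p)) :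
    y ∈ XS B := by
  obtain ⟨k, u, h1, h2⟩ := exists_def a φ p hp
  exact ⟨_, ok_cons.2 ⟨ha, h1⟩, ZFSet.ext fun x => (h2 x).trans (h x).symm⟩

theorem ord_XS {a : Ordinal} : ∀ {B : Set Ordinal}, a ∈ B → a.toZFSet ∈ XS B := by
  induction a using WellFoundedLT.induction with | _ a ih
  intro B ha
  refine def_mem ha (.lev 0) [] (by simp) fun x => ?_
  rw [mem_toZFSet_iff]
  exact ⟨fun ⟨b, h, e⟩ => ⟨e ▸ mem_L.2 (ih b h h), b, h, e.symm⟩, fun ⟨_, b, h, e⟩ => ⟨b, h, e.symm⟩⟩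

theorem ord_L {a b : Ordinal} : a.toZFSet ∈ L b ↔ a < b :=
  ⟨fun h => by simpa using rank_lt h, fun h => mem_L.2 (ord_XS h)⟩

theorem L_XS {B : Set Ordinal} {a : Ordinal} (ha : a ∈ B) : L a ∈ XS B :=
  def_mem ha (.eq 0 0) [] (by simp) fun x => by simp [St, Sx]

theorem nat_eq (n : ℕ) : nat n = (n : Ordinal).toZFSet := by
  induction n with
  | zero => simp [nat]
  | succ n ih => simp [nat, ih]

theorem omega_eq : ZFSet.omega.{0} = omega0.toZFSet := by
  ext x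
  rw [Lib.MP_053343_lc.mem_omega]
  simp only [mem_toZFSet_iff, lt_omega0, nat_eq]
  exact ⟨fun ⟨n, e⟩ => ⟨_, ⟨n, rfl⟩, e.symm⟩, fun ⟨_, ⟨n, e⟩, e'⟩ => ⟨n, e ▸ e'.symm⟩⟩

theorem pair_L {a : Ordinal} {x y : ZFSet} (h : ZFSet.pair x y ∈ L a) : x ∈ L a ∧ y ∈ L a :=
  have : ({x, y} : ZFSet) ∈ L a := L_trans h (by simp [ZFSet.pair])
  ⟨L_trans this (by simp), L_trans this (by simp)⟩

theorem tc_L {a : Ordinal} {t : Tm} (h : tc t ∈ L a) : In (Iio a) t := fun e he => by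
  obtain ⟨i, hi⟩ := List.mem_iff_getElem?.1 he
  exact ord_L.1 (pair_L (pair_L (L_trans h (pair_mem_tc.2 hi))).2).1

/-- Sets of levels closed under successor. -/
structure Sc (B : Set Ordinal.{0}) : Prop where
  zero : 0 ∈ B
  succ : ∀ a ∈ B, a + 1 ∈ B

theorem Sc.bound {B : Set Ordinal} (h : Sc B) (l : List Ordinal) (hl : ∀ a ∈ l, a ∈ B) :
    ∃ b ∈ B, ∀ a ∈ l, a < b := by
  induction l with
  | nil => exact ⟨0, h.zero, by simp⟩
  | cons a l ih =>
    obtain ⟨b, h1, h2⟩ := ih fun x hx => hl x (List.mem_cons_of_mem _ hx)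
    rcases lt_or_ge a b with c | c
    · exact ⟨b, h1, List.forall_mem_cons.2 ⟨c, h2⟩⟩
    · exact ⟨a + 1, h.succ a (hl a List.mem_cons_self), List.forall_mem_cons.2
        ⟨lt_add_one a, fun x hx => (h2 x hx).trans (c.trans_lt (lt_add_one a))⟩⟩

theorem Sc.level {B : Set Ordinal} (h : Sc B) (p : List ZFSet) (hp : ∀ x ∈ p, x ∈ XS B) :
    ∃ b ∈ B, ∀ x ∈ p, x ∈ L b := by
  induction p with
  | nil => exact ⟨0, h.zero, by simp⟩
  | cons x p ih =>
    obtain ⟨b, h1, h2⟩ := ih fun y hy => hp y (List.mem_cons_of_mem _ hy)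
    obtain ⟨t, h3, rfl⟩ := hp x List.mem_cons_self
    obtain ⟨c, h4, h5⟩ := h.bound (b :: t.map Prod.fst) (by simpa [h1] using fun a k e => h3.2 _ e)
    exact ⟨c, h4, List.forall_mem_cons.2 ⟨mem_L.2 ⟨t, ⟨h3.1, fun e he => h5 _
      (List.mem_cons_of_mem _ (List.mem_map_of_mem he))⟩, rfl⟩,
      fun y hy => L_mono (h5 b List.mem_cons_self).le (h2 y hy)⟩⟩

theorem Sc.empty {B : Set Ordinal} (h : Sc B) : ∅ ∈ XS B := by simpa using ord_XS h.zero

theorem Sc.insert {B : Set Ordinal} (h : Sc B) {x y : ZFSet} (hx : x ∈ XS B) (hy : y ∈ XS B) :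
    insert x y ∈ XS B := by
  obtain ⟨b, h1, h2⟩ := h.level [x, y] (by simp [hx, hy])
  refine def_mem h1 (.neg (.and (.neg (.eq 0 1)) (.neg (.mem 0 2)))) [x, y] (by simp [hx, hy])
    fun z => ?_
  simp only [St, Sx, List.getD_cons_zero, List.getD_cons_succ, ZFSet.mem_insert_iff]
  refine ⟨fun e => ⟨?_, by tauto⟩, by tauto⟩
  rcases e with rfl | e
  · exact h2 _ (by simp)
  · exact L_trans (h2 y (by simp)) e

theorem Sc.sing {B : Set Ordinal} (h : Sc B) {x : ZFSet} (hx : x ∈ XS B) :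
    ({x} : ZFSet) ∈ XS B := by
  simpa using h.insert hx h.empty

theorem Sc.pair {B : Set Ordinal} (h : Sc B) {x y : ZFSet} (hx : x ∈ XS B) (hy : y ∈ XS B) :
    ZFSet.pair x y ∈ XS B :=
  h.insert (h.sing hx) (h.sing (h.insert hx (h.sing hy)))

theorem Sc.nat {B : Set Ordinal} (h : Sc B) (n : ℕ) : (n : Ordinal) ∈ B := by
  induction n with
  | zero => exact h.zero
  | succ n ih => exact h.succ _ ih

theorem Sc.fin {B : Set Ordinal} (h : Sc B) (l : List ZFSet) (hl : ∀ x ∈ l, x ∈ XS B) :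
    ∃ s ∈ XS B, ∀ z, z ∈ s ↔ z ∈ l := by
  induction l with
  | nil => exact ⟨∅, h.empty, by simp⟩
  | cons x l ih =>
    obtain ⟨s, h1, h2⟩ := ih fun y hy => hl y (List.mem_cons_of_mem _ hy)
    exact ⟨_, h.insert (hl x List.mem_cons_self) h1, by simp [h2]⟩

theorem Sc.entry {B : Set Ordinal} (h : Sc B) (i k : ℕ) {a : Ordinal} (ha : a ∈ B) :
    ZFSet.pair (Lib.MP_053343_lc.nat i) (ZFSet.pair a.toZFSet (Lib.MP_053343_lc.nat k)) ∈ XS B := by
  rw [nat_eq, nat_eq]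
  exact h.pair (ord_XS (h.nat i)) (h.pair (ord_XS ha) (ord_XS (h.nat k)))

theorem Sc.tc {B : Set Ordinal} (h : Sc B) {t : Tm} (ht : In B t) : tc t ∈ XS B := by
  obtain ⟨s, h1, h2⟩ := h.fin (List.ofFn fun i : Fin t.length =>
    ZFSet.pair (Lib.MP_053343_lc.nat i) (ZFSet.pair t[i].1.toZFSet (Lib.MP_053343_lc.nat t[i].2)))
    (by
      simp only [List.mem_ofFn]
      rintro _ ⟨i, rfl⟩
      exact h.entry _ _ (ht _ (List.getElem_mem _)))
  rwa [show Constr.tc t = s from ZFSet.ext fun z => by simp [h2, Constr.tc]]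

end Pool.Agent.Shared.Constr
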