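import Pool.Agent.Shared.Constr.Cond

/-!
Hulls and collapses inside the model; the generalised continuum hypothesis.
-/

namespace Pool.Agent.Shared.Constr

open Function Set Ordinal Pool.Agent.Lib.MP_053343_lc InModel

variable {g : Lv}

/-- The underlying set of ordinals. -/
def up (s : PM LM (O g)) : Set Ordinal.{0} := {a | ∃ x ∈ s, x.1 = a}

theorem mem_up {s : PM LM (O g)} {x : O g} : x.1 ∈ up s ↔ x ∈ s :=
  ⟨fun ⟨_, h, e⟩ => Subtype.ext e ▸ h, fun h => ⟨x, h, rfl⟩⟩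

theorem up_sub (s : PM LM (O g)) : up s ⊆ Iio g.o := fun _ ⟨x, _, e⟩ => e ▸ x.2

def zO (g : Lv) : O g := ⟨0, g.sc.zero⟩

instance : Nonempty (O g) := ⟨zO g⟩

instance : Infinite (O g) :=
  Infinite.of_injective (fun n : ℕ => (⟨n, (natCast_lt_omega0 n).trans g.om⟩ : O g))
    fun _ _ h => Nat.cast_injective (congrArg Subtype.val h)

noncomputable def sO (a : O g) : O g := ⟨a.1 + 1, g.sc.succ _ a.2⟩

theorem lt_sO {a b : O g} : a < sO b ↔ a ≤ b := Order.lt_add_one_iff (x := a.1) (y := b.1)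

@[fun_prop] theorem mf_sO {α : Type*} [Cd LM α] {f : α → O g} (hf : MF LM f) :
    MF LM fun x => sO (f x) :=
  MF.of_rel (fun x y => ∀ z, z < y ↔ z ≤ f x) (by fun_prop) fun x y =>
    ⟨fun e z => e ▸ lt_sO, fun h => eq_of_forall_lt_iff fun z => lt_sO.trans (h z).symm⟩

theorem in_up {s : PM LM (O g)} {t : TO g} : In (up s) (tv t) ↔ ∀ e ∈ t, e.1 ∈ s := by
  simp only [In, tv, List.forall_mem_map, mem_up]

theorem tv_ne {t : TO g} : tv t ≠ [] ↔ t ≠ [] := by simp [tv]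

theorem tv_Lt {s t : TO g} : Lt (tv s) (tv t) ↔ Lt s t := by
  rw [Lt_iff, Lt_iff]
  simp only [tv, List.length_map, List.getElem?_map, Option.map_eq_some_iff, ← List.map_take]
  refine or_congr_right (and_congr_right fun _ => exists_congr fun i => ⟨?_, ?_⟩)
  · rintro ⟨_, _, ⟨a, h1, rfl⟩, ⟨b, h2, rfl⟩, h3, h4⟩
    exact ⟨a, b, h1, h2, h3.imp_right (And.imp_left Subtype.ext), tv_inj h4⟩
  · rintro ⟨a, b, h1, h2, h3, h4⟩
    exact ⟨_, _, ⟨a, h1, rfl⟩, ⟨b, h2, rfl⟩, h3.imp_right (And.imp_left (congrArg Subtype.val)),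
      by rw [h4]⟩

theorem mf_cand : MF LM fun p : TO g × TO g => Cand (tv p.1) (tv p.2) := by
  let A : {a // a ∈ LM} := ⟨L g.o, L_mem g.lt⟩
  have h1 := mf_val g (ZE A)
  have h2 := mf_mem (α := ZE A) (β := ZE A)
  let V : TO g → ZE A → Prop := fun t x => t ≠ [] ∧ S (tv t) = cd LM x
  let E : ZE A → ZE A → Prop := fun x y => cd LM x ∈ cd LM y
  have h3 : MF LM fun p : TO g × ZE A => V p.1 p.2 := h1
  have h4 : MF LM fun p : ZE A × ZE A => E p.1 p.2 := h2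
  refine MF.of_iff (p := fun p : TO g × TO g => ∃ e r, p.1 = e :: r ∧ (∀ x ∈ p.2, x.1 < e.1) ∧
    ∃ x y, V p.2 x ∧ V p.1 y ∧ E x y) (by fun_prop) ?_
  rintro ⟨t, u⟩
  constructor
  · rintro ⟨a, b⟩
    obtain _ | ⟨e, r⟩ := t
    · exact (ZFSet.notMem_empty _ b).elim
    · exact ⟨e, r, rfl, fun x hx => a.2 _ (List.mem_map_of_mem hx),
        ⟨_, mem_L.2 ⟨_, ⟨a.1, in_tv u⟩, rfl⟩⟩, ⟨_, mem_L.2 ⟨_, ⟨tv_ne.2 (by simp), in_tv (e :: r)⟩, rfl⟩⟩,
        ⟨tv_ne.1 a.1, rfl⟩, ⟨by simp, rfl⟩, b⟩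
  · rintro ⟨e, r, rfl, a, x, y, b, c, d⟩
    exact ⟨⟨tv_ne.2 b.1, List.forall_mem_map.2 a⟩, by rw [b.2, c.2]; exact d⟩

theorem hd_le (t : TO g) : Iio (hd (tv t)) ⊆ Iio g.o := by
  obtain _ | ⟨e, r⟩ := t
  · exact Iio_subset_Iio bot_le
  · exact Iio_subset_Iio e.1.2.le

theorem exists_witO (g : Lv) : ∃ f : TO g → TO g, MF LM f ∧ ∀ t, tv (f t) = wit (tv t) := by
  choose f hf using fun t : TO g => exists_tv ((wit_in (tv t)).mono (hd_le t))
  let C : TO g → TO g → Prop := fun t u => Cand (tv t) (tv u)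
  have : MF LM fun p : TO g × TO g => C p.1 p.2 := mf_cand
  refine ⟨f, MF.of_rel (fun t u => (C t u ∧ ∀ v, C t v → ¬ Lt v u) ∨ ((∀ v, ¬ C t v) ∧ u = []))
    (by fun_prop) fun t u => ?_, hf⟩
  have key : ∀ v, Cand (tv t) v → ∃ w : TO g, tv w = v := fun v hv =>
    exists_tv (hv.1.2.mono (hd_le t))
  rw [← tv_inj.eq_iff, hf, wit_eq]
  refine or_congr (and_congr_right fun _ => ⟨fun h v hv e => h _ hv (tv_Lt.2 e), fun h v hv e => ?_⟩)
    (and_congr ⟨fun h v => h _, fun h v hv => ?_⟩ (by simp [tv]))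
  · obtain ⟨w, rfl⟩ := key v hv
    exact h w hv (tv_Lt.1 e)
  · obtain ⟨w, rfl⟩ := key v hv
    exact h w hv

theorem exists_clO (g : Lv) :
    ∃ f : PM LM (O g) → PM LM (O g), MF LM f ∧ ∀ s, up (f s) = cl (up s) := by
  obtain ⟨w, h1, h2⟩ := exists_witO g
  let st := PM.lam (M := LM) (fun (s : PM LM (O g)) x => x ∈ s ∨ x = zO g ∨
    (∃ a, a ∈ s ∧ x = sO a) ∨ ∃ t : TO g, (t ≠ [] ∧ ∀ e ∈ t, e.1 ∈ s) ∧ ∃ e ∈ w t, e.1 = x)
    (by fun_prop)
  have h3 : ∀ s, up (st s) = step (up s) := fun s => by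
    ext a
    constructor
    · rintro ⟨x, c | rfl | ⟨b, c, rfl⟩ | ⟨t, c, e, d, rfl⟩, rfl⟩
      · exact Or.inl (mem_up.2 c)
      · exact Or.inr (Or.inl rfl)
      · exact Or.inr (Or.inr (Or.inl ⟨_, mem_up.2 c, rfl⟩))
      · exact Or.inr (Or.inr (Or.inr ⟨tv t, ⟨tv_ne.2 c.1, in_up.2 c.2⟩, (e.1.1, e.2),
          by rw [← h2]; exact List.mem_map_of_mem d, rfl⟩))
    · rintro (⟨x, c, rfl⟩ | rfl | ⟨_, ⟨b, c, rfl⟩, rfl⟩ | ⟨t, c, e, d, rfl⟩)
      · exact ⟨x, Or.inl c, rfl⟩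
      · exact ⟨_, Or.inr (Or.inl rfl), rfl⟩
      · exact ⟨_, Or.inr (Or.inr (Or.inl ⟨b, c, rfl⟩)), rfl⟩
      · obtain ⟨u, rfl⟩ := exists_tv (c.2.mono (up_sub s))
        rw [← h2] at d
        obtain ⟨x, k, rfl⟩ := List.mem_map.1 d
        exact ⟨_, Or.inr (Or.inr (Or.inr ⟨u, ⟨tv_ne.1 c.1, in_up.1 c.2⟩, x, k, rfl⟩)), rfl⟩
  have h4 : MF LM st := MF.pmlam MF.id'
  have h5 : MF LM fun p : PM LM (O g) × ℕ => st^[p.2] p.1 :=
    MF.of_rec (fun s n => st^[n] s) (fun _ _ => st) MF.id' (by fun_prop)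
      fun _ _ => iterate_succ_apply' _ _ _
  let it : PM LM (O g) → ℕ → PM LM (O g) := fun s n => st^[n] s
  have h6 : MF LM fun p : PM LM (O g) × ℕ => it p.1 p.2 := h5
  have h7 : ∀ s n, up (it s n) = step^[n] (up s) := fun s n => by
    induction n with
    | zero => rfl
    | succ n ih => simp only [it, iterate_succ_apply', h3] at ih ⊢; rw [ih]
  refine ⟨PM.lam (fun s x => ∃ n, x ∈ it s n) (by fun_prop), MF.pmlam MF.id', fun s => ?_⟩
  ext a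
  simp only [cl, mem_ofPred_eq, ← h7]
  exact ⟨fun ⟨x, ⟨n, h⟩, e⟩ => ⟨n, x, h, e⟩, fun ⟨n, x, h, e⟩ => ⟨x, ⟨n, h⟩, e⟩⟩

/-- The closure inside the model. -/
noncomputable def clO : PM LM (O g) → PM LM (O g) := (exists_clO g).choose

@[fun_prop] theorem mf_clO {α : Type*} [Cd LM α] {f : α → PM LM (O g)} (hf : MF LM f) :
    MF LM fun x => clO (f x) := (exists_clO g).choose_spec.1.comp hf

theorem up_clO (s : PM LM (O g)) : up (clO s) = cl (up s) := (exists_clO g).choose_spec.2 s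

/-- The collapse inside the model. -/
noncomputable def piO (s : PM LM (O g)) (a : O g) : O g := ⟨pi (up s) a.1, (pi_le _ _).trans_lt a.2⟩

theorem lt_piO {s : PM LM (O g)} {a c : O g} : c < piO s a ↔ ∃ b, b ∈ s ∧ b < a ∧ piO s b = c :=
  lt_pi.trans ⟨fun ⟨_, ⟨b, h1, rfl⟩, h2, h3⟩ => ⟨b, h1, h2, Subtype.ext h3⟩,
    fun ⟨b, h1, h2, h3⟩ => ⟨b.1, mem_up.2 h1, h2, congrArg Subtype.val h3⟩⟩

@[fun_prop] theorem mf_piO {α : Type*} [Cd LM α] {f : α → PM LM (O g)} {h : α → O g}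
    (hf : MF LM f) (hh : MF LM h) : MF LM fun x => piO (f x) (h x) := by
  refine (MF.wfrec (M := LM) (· < ·) wellFounded_lt (fun _ _ _ => lt_trans) (by fun_prop) piO
    (fun s a k y => ∀ d, d < y ↔ ∃ b, b ∈ s ∧ b < a ∧ k.fn b = d) (by fun_prop)
    fun s a k hk y => ?_).comp (hf.prodMk hh)
  have : ∀ d, d < piO s a ↔ ∃ b, b ∈ s ∧ b < a ∧ k.fn b = d := fun d => lt_piO.trans
    (exists_congr fun b => and_congr_right fun _ => and_congr_right fun e => by rw [hk b e])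
  exact ⟨fun e => eq_of_forall_lt_iff fun d => (this d).trans (e d).symm, fun e => e ▸ this⟩

/-- Initial segments of ordinals. -/
noncomputable def sg (a : O g) : PM LM (O g) := seg (· < ·) (by fun_prop) a

@[simp] theorem mem_sg {a b : O g} : b ∈ sg a ↔ b < a := Iff.rfl

@[fun_prop] theorem mf_sg {α : Type*} [Cd LM α] {f : α → O g} (hf : MF LM f) :
    MF LM fun x => sg (f x) := (MF.toPM (f := sg) (mf_ltO MF.id'.snd MF.id'.fst)).comp hf

theorem sg_piO (s : PM LM (O g)) (a : O g) : Le LM (sg (piO s a)).El s.El :=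
  Le.of_rel (fun x y => piO s y.v = x.v) (by fun_prop)
    (fun x => let ⟨b, h1, _, h2⟩ := lt_piO.1 x.mem; ⟨s.mk' b h1, h2⟩)
    fun _ _ _ a b => PM.El.inj (a.symm.trans b)

theorem exists_hull {β : Type*} [Cd LM β] [Infinite β] (op : ℕ → List (O g) → O g)
    (hop : MF LM fun p : ℕ × List (O g) => op p.1 p.2) (s : PM LM (O g)) (hs : Le LM s.El β) :
    ∃ N : PM LM (O g), Le LM N.El β ∧ (∀ x ∈ s, x ∈ N) ∧ Cl (up N) ∧
      ∀ i l, (∀ x ∈ l, x ∈ N) → op i l ∈ N := by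
  obtain ⟨w, h1, h2⟩ := exists_witO g
  obtain ⟨x, h3, h4⟩ := hs.cover
  let z : O g × ℕ := (zO g, 0)
  obtain ⟨y, h5, h6, h7⟩ := exists_closure (M := LM) (fun i (l : TO g) =>
    if i.unpair.1 = 0 then z else if i.unpair.1 = 1 then (sO (l.getD 0 z).1, 0) else
    if i.unpair.1 = 2 then ((l.getD 0 z).1, i.unpair.2) else
    if i.unpair.1 = 3 then (w l).getD i.unpair.2 z else (op i.unpair.2 (l.map Prod.fst), 0))
    (by fun_prop) (fun b => (x b, 0)) (by fun_prop)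
  have h8 : ∀ a k, (∃ c, (y c).1 = a) → ∃ c, y c = (a, k) := by
    rintro _ k ⟨c, rfl⟩
    simpa using h7 (Nat.pair 2 k) [y c] (by simp)
  refine ⟨PM.of (fun a => ∃ c, (y c).1 = a) (by fun_prop),
    Le.of_cover (fun c => (y c).1) (by fun_prop) fun _ h => h, fun a ha => ?_,
    ⟨⟨?_, ?_⟩, fun t ht => ?_⟩, fun i l hl => ?_⟩
  · obtain ⟨b, rfl⟩ := h4 a ha
    exact (h6 b).imp fun c e => congrArg Prod.fst e
  · obtain ⟨c, e⟩ := h7 (Nat.pair 0 0) [] (by simp)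
    exact ⟨zO g, ⟨c, by simp [e, z]⟩, rfl⟩
  · rintro _ ⟨_, ⟨c, rfl⟩, rfl⟩
    obtain ⟨d, e⟩ := h7 (Nat.pair 1 0) [y c] (by simp)
    exact ⟨sO (y c).1, ⟨d, by simp [e]⟩, rfl⟩
  · obtain ⟨u, rfl⟩ := exists_tv (ht.2.mono (up_sub _))
    rw [← h2, in_up]
    intro e he
    obtain ⟨i, hi⟩ := List.mem_iff_getElem?.1 he
    obtain ⟨d, e'⟩ := h7 (Nat.pair 3 i) u fun a ha => h8 _ _ (in_up.1 ht.2 a ha)
    exact ⟨d, by simp [e', hi]⟩
  · obtain ⟨d, e'⟩ := h7 (Nat.pair 4 i) (l.map fun a => (a, 0))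
      (List.forall_mem_map.2 fun a ha => h8 _ _ (hl a ha))
    exact ⟨d, by simp [e', Function.comp_def]⟩

theorem clO_le {β : Type*} [Cd LM β] [Infinite β] {s : PM LM (O g)} (hs : Le LM s.El β) :
    Le LM (clO s).El β := by
  obtain ⟨N, h1, h2, h3, -⟩ := exists_hull (fun _ _ => zO g) (by fun_prop) s hs
  refine (Le.sub fun x hx => mem_up.1 (h3.cl_sub ?_ (up_clO s ▸ mem_up.2 hx))).trans h1
  rintro _ ⟨y, hy, rfl⟩
  exact mem_up.2 (h2 y hy)

/-- A set together with finitely many points. -/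
noncomputable def adj (s : PM LM (O g)) (l : List (O g)) : PM LM (O g) :=
  PM.lam (fun (p : PM LM (O g) × List (O g)) x => x ∈ p.1 ∨ x ∈ p.2) (by fun_prop) (s, l)

@[simp] theorem mem_adj {s : PM LM (O g)} {l : List (O g)} {x : O g} :
    x ∈ adj s l ↔ x ∈ s ∨ x ∈ l := Iff.rfl

@[fun_prop] theorem mf_adj {α : Type*} [Cd LM α] {f : α → PM LM (O g)} {h : α → List (O g)}
    (hf : MF LM f) (hh : MF LM h) : MF LM fun x => adj (f x) (h x) := MF.pmlam (hf.prodMk hh)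

theorem adj_le {β : Type*} [Cd LM β] [Infinite β] {s : PM LM (O g)} (hs : Le LM s.El β)
    (l : List (O g)) : Le LM (adj s l).El β := by
  obtain ⟨x, h1, h2⟩ := hs.cover
  refine (Le.of_cover (fun p : ℕ × β => l.getD p.1 (x p.2)) (by fun_prop) ?_).trans
    (Le.nat.pr Le.refl)
  rintro a (ha | ha)
  · obtain ⟨b, rfl⟩ := h2 a ha
    exact ⟨(l.length, b), by simp⟩
  · obtain ⟨i, hi⟩ := List.mem_iff_getElem?.1 ha
    exact ⟨(i, Classical.arbitrary β), by simp [hi]⟩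

theorem exists_above (a b : Lv) : ∃ c : Lv, a.o < c.o ∧ b.o < c.o := by
  obtain ⟨c, h1, h2, h3⟩ := exists_th.choose_spec.2.2 _ (max_lt a.lt b.lt)
  exact ⟨⟨c, h2, h3.1, a.om.trans ((le_max_left _ _).trans_lt h1)⟩, max_lt_iff.1 h1⟩

theorem exists_kappa (α : Type*) [Cd LM α] : ∃ (g : Lv) (κ : O g), Le LM α (sg κ).El ∧
    Le LM (sg κ).El α ∧ (∀ d < κ, ¬ Le LM α (sg d).El) ∧
    ∀ X : PM LM (O g), (∀ x ∈ X, x < κ) → ∃ t : TO g, t ≠ [] ∧ S (tv t) = cd LM X := by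
  obtain ⟨a, ha⟩ := exists_Lv α
  obtain ⟨b, hb⟩ := exists_Lv (PM LM (O a))
  obtain ⟨g, h1, h2⟩ := exists_above a b
  have h3 : Le LM α (O a) :=
    (Le.of_rel (fun x (t : TO a) => t ≠ [] ∧ S (tv t) = cd LM x)
      ((mf_val a α).comp (g := fun p : α × TO a => (p.2, p.1)) (by fun_prop)) ha
      fun _ _ _ x y => cd_inj.1 (x.2.symm.trans y.2)).trans (Le.refl.pr Le.nat).li
  let i : O a → O g := fun x => ⟨x.1, x.2.trans h1⟩
  have hi : MF LM i := MF.of_code fun _ => rfl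
  have h4 : Le LM α (sg (⟨a.o, h1⟩ : O g)).El :=
    h3.trans (Le.toEl i hi (fun _ _ e => Subtype.ext (congrArg Subtype.val e :)) fun x => x.2)
  obtain ⟨κ, ⟨f, h5, h6⟩, h7⟩ := wellFounded_lt.has_min {κ : O g | Le LM α (sg κ).El} ⟨_, h4⟩
  refine ⟨g, κ, ⟨f, h5, h6⟩, ?_, fun d hd e => h7 d e hd, fun X hX => ?_⟩
  · let s : PM LM (O g) := PM.of (fun x => ∃ y, (f y).v = x) (by fun_prop)
    have h8 : Le LM α (sg (piO s κ)).El := Le.toEl (fun y => piO s (f y).v) (by fun_prop)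
      (fun y z e => h6 (PM.El.inj (Subtype.ext ((pi_inj ((mem_up (s := s)).2 ⟨y, rfl⟩)
        ((mem_up (s := s)).2 ⟨z, rfl⟩)).1
        (congrArg Subtype.val e))))) fun y => lt_piO.2 ⟨_, ⟨y, rfl⟩, (f y).mem, rfl⟩
    exact (Le.sub fun x hx => lt_of_lt_of_le hx (not_lt.1 (h7 _ h8))).trans
      ((sg_piO s κ).trans (Le.of_cover _ (by fun_prop) fun _ h => h))
  · obtain ⟨t, k1, k2⟩ := hb (PM.of (fun x => i x ∈ X) (by fun_prop))
    obtain ⟨u, k3⟩ := exists_tv (g := g) ((in_tv t).mono (Iio_subset_Iio h2.le))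
    refine ⟨u, tv_ne.1 (k3 ▸ tv_ne.2 k1), k3 ▸ k2.trans (ZFSet.ext fun z => ?_)⟩
    rw [mem_cd_PM, mem_cd_PM]
    exact ⟨fun ⟨x, a, b⟩ => ⟨i x, a, b⟩, fun ⟨x, a, b⟩ =>
      ⟨⟨x.1, lt_of_lt_of_le (hX x a) (not_lt.1 (h7 _ h4))⟩, a, b⟩⟩

theorem tv_piO (s : PM LM (O g)) (t : TO g) :
    tv (t.map fun e => (piO s e.1, e.2)) = pt (up s) (tv t) := by
  simp [tv, pt, piO]

theorem le_bounded {α : Type*} [Cd LM α] {κ : O g} (h : Le LM α (sg κ).El) :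
    ∃ i : PM LM α → PM LM (O g), MF LM i ∧ Injective i ∧ ∀ X, ∀ x ∈ i X, x < κ := by
  obtain ⟨f, h1, h2⟩ := h
  refine ⟨PM.lam (fun X y => ∃ x, x ∈ X ∧ (f x).v = y) (by fun_prop), MF.pmlam MF.id',
    fun X Y e => PM.ext' fun x => ?_, fun X y ⟨x, _, e⟩ => e ▸ (f x).mem⟩
  simpa [PM.El.inj.eq_iff, h2.eq_iff] using congrArg (fun s => (f x).v ∈ s) e

theorem gch : GCH LM := by
  intro α β _ _ _ h
  have := infinite_of_not_le h
  obtain ⟨g, κ, h1, h2, -, h3⟩ := exists_kappa α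
  obtain ⟨i, k1, k2, k3⟩ := le_bounded h1
  let K : PM LM (O g) := PM.of (fun d => Le LM (sg d).El α) (by fun_prop)
  have h4 : Le LM K.El β := by
    obtain ⟨r, _, hr⟩ := exists_wo LM β
    have : IsWellOrder K.El fun x y => x.v < y.v :=
      (RelEmbedding.preimage ⟨PM.El.v, PM.El.inj⟩ (· < ·)).isWellOrder
    rcases InitialSeg.total (fun x y : K.El => x.v < y.v) r with f | f
    · exact ⟨f, MF.initialSeg (by fun_prop) hr f, f.injective⟩
    have hf := MF.initialSeg hr (by fun_prop) f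
    refine Le.of_surj hf fun d => by_contra fun c => h (Le.trans (Le.toEl (s := sg d.v)
      (fun b => (f b).v) (by fun_prop) (PM.El.inj.comp f.injective) fun b => ?_) d.mem)
    rcases lt_trichotomy (f b).v d.v with e | e | e
    exacts [e, (c ⟨b, PM.El.inj e⟩).elim, (c (f.mem_range_of_rel e)).elim]
  let V : TO g → PM LM (O g) → Prop := fun t x => t ≠ [] ∧ S (tv t) = cd LM x
  have h5 : MF LM fun p : TO g × PM LM (O g) => V p.1 p.2 := mf_val g _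
  refine (Le.of_rel (fun X (t : List (K.El × ℕ)) => V (t.map fun e => (e.1.v, e.2)) (i X))
    (by fun_prop) (fun X => ?_) fun X Y t a b => k2 (cd_inj.1 ((And.right a).symm.trans (And.right b)))).trans
    (h4.pr Le.nat).li
  obtain ⟨t, h6, h7⟩ := h3 _ (k3 X)
  let H := clO (adj (sg κ) (t.map Prod.fst))
  have c : Cl (up H) := up_clO _ ▸ cl_cl _
  have h8 : ∀ x, x < κ ∨ x ∈ t.map Prod.fst → x.1 ∈ up H := fun x hx =>
    up_clO _ ▸ subset_cl (mem_up.2 hx)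
  refine ⟨t.map fun e => (K.mk' (piO H e.1) ((sg_piO _ _).trans (clO_le (adj_le h2 _))), e.2),
    by simpa using h6, ?_⟩
  rw [List.map_map]
  refine (congrArg S (tv_piO H t)).trans ?_
  rw [← c.j_S (t := tv t)
    (List.forall_mem_map.2 fun e he => h8 _ (Or.inr (List.mem_map_of_mem he))), h7]
  have h9 : ∀ x ∈ i X, jj (XS (up H)) (cd LM x) = cd LM x := fun x hx =>
    c.j_ord.trans (congrArg _ (pi_fix fun y hy =>
      h8 ⟨y, hy.trans x.2⟩ (Or.inl (lt_trans hy (k3 X x hx)))))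
  ext z
  simp only [mem_jj, mem_cd_PM]
  exact ⟨by rintro ⟨_, ⟨x, a, rfl⟩, -, rfl⟩; exact ⟨x, a, (h9 x a).symm⟩,
    by rintro ⟨x, a, rfl⟩; exact ⟨_, ⟨x, a, rfl⟩, ord_XS (h8 x (Or.inl (k3 X x a))), h9 x a⟩⟩

end Pool.Agent.Shared.Constr
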