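import Pool.Agent.Shared.Constr.Def

/-!
A level of the hierarchy that is a transitive model of ZFC.
-/

namespace Pool.Agent.Shared.Constr

open Function Set Ordinal Pool.Agent.Lib.MP_053343_lc InModel

/-- Tarski-Vaught condition for a level inside the whole hierarchy. -/
def Elem (b : Ordinal.{0}) : Prop :=
  Sc (Iio b) ∧ ∀ (φ : Fx) (p : List ZFSet), (∀ x ∈ p, x ∈ L b) →
    (∃ x ∈ XS univ, St univ φ (x :: p)) → ∃ x ∈ L b, St univ φ (x :: p)

theorem getD_XS {B : Set Ordinal} (h : Sc B) {p : List ZFSet} (hp : ∀ x ∈ p, x ∈ XS B) (i : ℕ) :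
    p.getD i ∅ ∈ XS B := by
  rw [List.getD_eq_getElem?_getD]
  cases e : p[i]? with
  | none => exact h.empty
  | some a => exact hp a (List.mem_of_getElem? e)

theorem Elem.st {b : Ordinal} (h : Elem b) (φ : Fx) : ∀ p : List ZFSet, (∀ x ∈ p, x ∈ L b) →
    (St (Iio b) φ p ↔ St univ φ p) := by
  induction φ with
  | lev i =>
    exact fun p hp => exists_congr fun a => ⟨fun e => ⟨trivial, e.2⟩, fun e =>
      ⟨ord_L.1 (e.2 ▸ mem_L.2 (getD_XS h.1 (fun x hx => mem_L.1 (hp x hx)) i)), e.2⟩⟩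
  | ev i j =>
    exact fun p hp => exists_congr fun t => ⟨fun e => ⟨e.1.mono (subset_univ _), e.2⟩, fun e =>
      ⟨⟨e.1.1, tc_L (e.2.1 ▸ mem_L.2 (getD_XS h.1 (fun x hx => mem_L.1 (hp x hx)) i))⟩, e.2⟩⟩
  | neg φ ih => exact fun p hp => not_congr (ih p hp)
  | and φ ψ ih ih' => exact fun p hp => and_congr (ih p hp) (ih' p hp)
  | ex φ ih =>
    intro p hp
    rw [St_ex, St_ex]
    constructor
    · rintro ⟨x, h1, h2⟩
      exact ⟨x, XS_mono (subset_univ _) h1,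
        (ih _ (List.forall_mem_cons.2 ⟨mem_L.2 h1, hp⟩)).1 h2⟩
    · intro e
      obtain ⟨x, h1, h2⟩ := h.2 φ p hp e
      exact ⟨x, mem_L.1 h1, (ih _ (List.forall_mem_cons.2 ⟨h1, hp⟩)).2 h2⟩
  | _ => exact fun _ _ => Iff.rfl

theorem sc_univ : Sc univ := ⟨trivial, fun _ _ => trivial⟩

theorem XS_univ {x : ZFSet} (h : x ∈ XS univ) : ∃ a, x ∈ L a :=
  let ⟨a, _, h⟩ := sc_univ.level [x] (by simpa using h); ⟨a, h x (by simp)⟩

theorem bound_seq (c : ℕ → Ordinal.{0}) (hc : StrictMono c) (p : List ZFSet)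
    (hp : ∀ x ∈ p, x ∈ L (⨆ n, c n)) : ∃ n, ∀ x ∈ p, x ∈ L (c n) := by
  have sc : Sc (Iio (⨆ n, c n)) := ⟨Ordinal.lt_iSup_iff.2 ⟨1, bot_le.trans_lt (hc zero_lt_one)⟩,
    fun a ha => let ⟨n, hn⟩ := Ordinal.lt_iSup_iff.1 ha; Ordinal.lt_iSup_iff.2
      ⟨n + 1, (Order.add_one_le_of_lt hn).trans_lt (hc n.lt_succ_self)⟩⟩
  obtain ⟨b, h1, h2⟩ := sc.level p fun x hx => mem_L.1 (hp x hx)
  obtain ⟨n, hn⟩ := Ordinal.lt_iSup_iff.1 h1
  exact ⟨n, fun x hx => L_mono hn.le (h2 x hx)⟩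

theorem elem_iSup (c : ℕ → Ordinal.{0}) (hc : StrictMono c)
    (h : ∀ n (φ : Fx) (p : List ZFSet), (∀ x ∈ p, x ∈ L (c n)) →
      (∃ x ∈ XS univ, St univ φ (x :: p)) → ∃ x ∈ L (c (n + 1)), St univ φ (x :: p)) :
    Elem (⨆ n, c n) := by
  refine ⟨⟨Ordinal.lt_iSup_iff.2 ⟨1, bot_le.trans_lt (hc zero_lt_one)⟩,
    fun a ha => let ⟨n, hn⟩ := Ordinal.lt_iSup_iff.1 ha; Ordinal.lt_iSup_iff.2
      ⟨n + 1, (Order.add_one_le_of_lt hn).trans_lt (hc n.lt_succ_self)⟩⟩, fun φ p hp e => ?_⟩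
  obtain ⟨n, hn⟩ := bound_seq c hc p hp
  obtain ⟨x, h1, h2⟩ := h n φ p hn e
  exact ⟨x, L_mono (Ordinal.le_iSup c _) h1, h2⟩

theorem exists_elem (a : Ordinal.{0}) : ∃ b, a < b ∧ Elem b := by
  have step : ∀ a : Ordinal.{0}, ∃ b, a < b ∧ ∀ (φ : Fx) (p : List ZFSet), (∀ x ∈ p, x ∈ L a) →
      (∃ x ∈ XS univ, St univ φ (x :: p)) → ∃ x ∈ L b, St univ φ (x :: p) := fun a => by
    have : ∀ q : Fx × List (L a), ∃ b, (∃ x ∈ XS univ, St univ q.1 (x :: q.2.map (↑))) →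
        ∃ x ∈ L b, St univ q.1 (x :: q.2.map (↑)) := fun q => by
      by_cases e : ∃ x ∈ XS univ, St univ q.1 (x :: q.2.map (↑))
      · obtain ⟨x, h1, h2⟩ := e
        obtain ⟨b, hb⟩ := XS_univ h1
        exact ⟨b, fun _ => ⟨x, hb, h2⟩⟩
      · exact ⟨0, fun h => (e h).elim⟩
    choose g hg using this
    refine ⟨max (a + 1) (⨆ q, g q), lt_max_of_lt_left (lt_add_one a), fun φ p hp e => ?_⟩
    have := hg (φ, p.pmap Subtype.mk hp)
    simp only [List.map_pmap, List.pmap_eq_map, List.map_id'] at this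
    obtain ⟨x, h1, h2⟩ := this e
    exact ⟨x, L_mono ((Ordinal.le_iSup g _).trans (le_max_right _ _)) h1, h2⟩
  choose f h1 h2 using step
  have hc : StrictMono fun n => f^[n] a :=
    strictMono_nat_of_lt_succ fun n => by rw [iterate_succ_apply']; exact h1 _
  exact ⟨_, Ordinal.lt_iSup_iff.2 ⟨1, hc zero_lt_one⟩,
    elem_iSup _ hc fun n => by rw [iterate_succ_apply']; exact h2 _⟩

theorem exists_th : ∃ θ : Ordinal.{0}, Elem θ ∧ omega0 < θ ∧ ∀ a < θ, ∃ b, a < b ∧ b < θ ∧ Elem b := by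
  choose f h1 h2 using exists_elem
  have hc : StrictMono fun n => f^[n] (f omega0) :=
    strictMono_nat_of_lt_succ fun n => by rw [iterate_succ_apply']; exact h1 _
  have he : ∀ n, Elem (f^[n] (f omega0)) := fun n => by
    rw [← iterate_succ_apply, iterate_succ_apply']; exact h2 _
  refine ⟨_, elem_iSup _ hc fun n φ p hp e => ?_, Ordinal.lt_iSup_iff.2 ⟨0, h1 _⟩, fun a ha => ?_⟩
  · exact ((he n).2 φ p hp e).imp fun x hx => ⟨L_mono (hc n.lt_succ_self).le hx.1, hx.2⟩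
  · obtain ⟨n, hn⟩ := Ordinal.lt_iSup_iff.1 ha
    exact ⟨_, hn, Ordinal.lt_iSup_iff.2 ⟨n + 1, hc n.lt_succ_self⟩, he n⟩

/-- The height of the model. -/
noncomputable def th : Ordinal.{0} := exists_th.choose

/-- The model. -/
noncomputable def LM : ZFSet.{0} := L th

theorem elem_th : Elem th := exists_th.choose_spec.1

theorem omega_lt_th : omega0 < th := exists_th.choose_spec.2.1

theorem exists_lev (p : List ZFSet) (hp : ∀ x ∈ p, x ∈ LM) :
    ∃ b < th, Elem b ∧ omega0 < b ∧ ∀ x ∈ p, x ∈ L b := by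
  obtain ⟨a, h1, h2⟩ := elem_th.1.level p fun x hx => mem_L.1 (hp x hx)
  obtain ⟨b, h3, h4, h5⟩ := exists_th.choose_spec.2.2 (max a omega0) (max_lt h1 omega_lt_th)
  exact ⟨b, h4, h5, (le_max_right _ _).trans_lt h3,
    fun x hx => L_mono ((le_max_left _ _).trans h3.le) (h2 x hx)⟩

theorem L_mem {b : Ordinal} (h : b < th) : L b ∈ LM := mem_L.2 (L_XS h)

theorem sepL (φ : Fx) (p : List ZFSet) {b : Ordinal} (hb : b < th) (he : Elem b)
    (hp : ∀ x ∈ p, x ∈ L b) : (L b).sep (fun x => St univ φ (x :: p)) ∈ LM :=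
  mem_L.2 (def_mem hb φ p (fun x hx => mem_L.1 (L_mono hb.le (hp x hx))) fun x => by
    rw [ZFSet.mem_sep]
    exact and_congr_right fun hx => (he.st φ _ (List.forall_mem_cons.2 ⟨hx, hp⟩)).symm)

theorem sepY (φ : Fx) (p : List ZFSet) (hp : ∀ x ∈ p, x ∈ LM) {y : ZFSet}
    (hy : ∀ b, Elem b → (∀ x ∈ p, x ∈ L b) → ∀ x ∈ y, x ∈ L b)
    (h : ∀ x, x ∈ y ↔ St univ φ (x :: p)) : y ∈ LM := by
  obtain ⟨b, h1, h2, -, h3⟩ := exists_lev p hp
  rw [show y = (L b).sep (fun x => St univ φ (x :: p)) from ZFSet.ext fun x => by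
    rw [ZFSet.mem_sep, ← h, and_iff_right_iff_imp.2 (hy b h2 h3 x)]]
  exact sepL φ p h1 h2 h3

theorem sepX (φ : Fx) (p : List ZFSet) (hp : ∀ x ∈ p, x ∈ LM) {a : ZFSet} (ha : a ∈ LM) :
    a.sep (fun x => St univ φ (x :: p)) ∈ LM := by
  obtain ⟨b, h1, h2, -, h3⟩ := exists_lev (a :: p) (List.forall_mem_cons.2 ⟨ha, hp⟩)
  have := sepL φ p h1 h2 (List.forall_mem_cons.1 h3).2
  refine sepY (.and (.mem 0 1) (.mem 0 2)) [a, _] (by simp only [List.mem_cons,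
    List.not_mem_nil, or_false, forall_eq_or_imp, forall_eq]; exact ⟨ha, this⟩)
    (fun b _ h x hx => L_trans (h a (by simp)) (ZFSet.mem_sep.1 hx).1) fun x => ?_
  simp only [St, Sx, List.getD_cons_zero, List.getD_cons_succ, ZFSet.mem_sep]
  exact and_congr_right fun hx => (and_iff_right (L_trans (h3 a (by simp)) hx)).symm

def emb : Fml → Fx
  | .mem i j => .mem i j
  | .eq i j => .eq i j
  | .neg φ => .neg (emb φ)
  | .and φ ψ => .and (emb φ) (emb ψ)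
  | .ex φ => .ex (emb φ)

theorem sat_emb (b : Ordinal) (φ : Fml) : ∀ l, Sat (L b) φ l ↔ St (Iio b) (emb φ) l := by
  induction φ with
  | neg φ ih => exact fun l => not_congr (ih l)
  | and φ ψ ih ih' => exact fun l => and_congr (ih l) (ih' l)
  | ex φ ih => exact fun l => by simp only [emb, St_ex, Sat, mem_L, ih]
  | _ => exact fun _ => Iff.rfl

theorem sat_LM (φ : Fml) {l : List ZFSet} (h : ∀ x ∈ l, x ∈ LM) :
    Sat LM φ l ↔ St univ (emb φ) l := (sat_emb _ _ _).trans (elem_th.st _ _ h)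

theorem LM_XS {x : ZFSet} (h : x ∈ LM) : x ∈ XS univ := XS_mono (subset_univ _) (mem_L.1 h)

theorem XS_trans {x y : ZFSet} (hx : x ∈ XS univ) (hy : y ∈ x) : y ∈ XS univ :=
  let ⟨_, h⟩ := XS_univ hx; XS_mono (subset_univ _) (mem_L.1 (L_trans h hy))

theorem modelZF : ModelZF LM where
  trans _ ha _ hx := L_trans ha hx
  ext a ha b hb h := ZFSet.ext fun x =>
    ⟨fun hx => (h x (L_trans ha hx)).1 hx, fun hx => (h x (L_trans hb hx)).2 hx⟩
  found a ha := fun ⟨x, _, hx⟩ => by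
    obtain ⟨y, h1, h2⟩ := ZFSet.mem_wf.has_min {y | y ∈ a} ⟨x, hx⟩
    exact ⟨y, L_trans ha h1, h1, fun ⟨z, _, h3, h4⟩ => h2 z h4 h3⟩
  pair a ha b hb := mem_L.2 (elem_th.1.insert (mem_L.1 ha) (elem_th.1.sing (mem_L.1 hb)))
  union a ha := by
    refine sepY (.ex (.and (.mem 0 2) (.mem 1 0))) [a] (by simpa using ha) (fun b _ h x hx => ?_)
      fun x => ?_
    · obtain ⟨y, h1, h2⟩ := ZFSet.mem_sUnion.1 hx
      exact L_trans (L_trans (h a (by simp)) h1) h2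
    · rw [St_ex, ZFSet.mem_sUnion]
      exact exists_congr fun y => ⟨fun h => ⟨XS_trans (LM_XS ha) h.1, h⟩, fun h => h.2⟩
  power a ha := by
    let sub : ℕ → ℕ → Fx := fun i j => .neg (.ex (.and (.mem 0 (i + 1)) (.neg (.mem 0 (j + 1)))))
    have hs : ∀ (x : ZFSet) i j l, x ∈ XS univ → l.getD i ∅ = x → l.getD j ∅ = a →
        (St univ (sub i j) l ↔ x ⊆ a) := fun x i j l hx e1 e2 => by
      refine (not_congr St_ex).trans ?_
      simp only [St, Sx, List.getD_cons_zero, List.getD_cons_succ, e1, e2]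
      exact ⟨fun h y hy => by_contra fun c => h ⟨y, XS_trans hx hy, hy, c⟩,
        fun h ⟨y, _, h1, h2⟩ => h2 (h h1)⟩
    have key : ∀ y, St univ (.neg (.ex (.and (sub 0 2) (.neg (.mem 0 1))))) [y, a] ↔
        ∀ x ∈ XS univ, x ⊆ a → x ∈ y := fun y => by
      refine (not_congr St_ex).trans ⟨fun h x hx e => by_contra fun c =>
        h ⟨x, hx, (hs x 0 2 _ hx rfl rfl).2 e, c⟩, fun h ⟨x, hx, h1, h2⟩ =>
          h2 (h x hx ((hs x 0 2 _ hx rfl rfl).1 h1))⟩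
    have : ∀ x : a.powerset, ∃ b, x.1 ∈ XS univ → x.1 ∈ L b := fun x => by
      by_cases e : x.1 ∈ XS univ
      · exact (XS_univ e).imp fun _ h _ => h
      · exact ⟨0, fun h => (e h).elim⟩
    choose g hg using this
    obtain ⟨y, h1, h2⟩ := elem_th.2 _ [a] (by simpa [LM] using ha) ⟨L (⨆ x, g x), L_XS trivial,
      (key _).2 fun x hx e => L_mono (Ordinal.le_iSup g ⟨x, ZFSet.mem_powerset.2 e⟩) (hg _ hx)⟩
    refine ⟨_, sepX (sub 0 1) [a] (by simpa using ha) h1, fun x hx => ?_⟩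
    rw [ZFSet.mem_sep, hs x 0 1 _ (LM_XS hx) rfl rfl]
    exact and_iff_right_iff_imp.2 ((key y).1 h2 x (LM_XS hx))
  inf := omega_eq ▸ ord_L.2 omega_lt_th
  sep φ l hl a ha := by
    have := sepX (emb φ) l hl ha
    rwa [show a.sep (fun x => Sat LM φ (x :: l)) = a.sep (fun x => St univ (emb φ) (x :: l)) from
      ZFSet.ext fun x => by
        simp only [ZFSet.mem_sep]
        exact and_congr_right fun hx => sat_LM φ (List.forall_mem_cons.2 ⟨L_trans ha hx, hl⟩)]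
  coll φ l hl a ha h := by
    obtain ⟨b, h1, h2, -, h3⟩ := exists_lev (a :: l) (List.forall_mem_cons.2 ⟨ha, hl⟩)
    refine ⟨L b, L_mem h1, fun x hx => ?_⟩
    obtain ⟨y, h4, h5⟩ := h x hx
    have h6 : ∀ y ∈ LM, ∀ z ∈ y :: x :: l, z ∈ LM := fun y hy =>
      List.forall_mem_cons.2 ⟨hy, List.forall_mem_cons.2 ⟨L_trans ha hx, hl⟩⟩
    obtain ⟨z, h7, h8⟩ := h2.2 (emb φ) (x :: l) (List.forall_mem_cons.2
      ⟨L_trans (h3 a (by simp)) hx, (List.forall_mem_cons.1 h3).2⟩)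
      ⟨y, LM_XS h4, (sat_LM φ (h6 y h4)).1 h5⟩
    exact ⟨z, h7, (sat_LM φ (h6 z (L_mono h1.le h7))).2 h8⟩

instance : Mdl LM := ⟨modelZF⟩

/-- Good levels below the height of the model. -/
structure Lv : Type 1 where
  o : Ordinal.{0}
  lt : o < th
  sc : Sc (Iio o)
  om : omega0 < o

/-- Ordinals below a level. -/
def O (g : Lv) : Type 1 := {a // a < g.o}

noncomputable instance (g : Lv) : LinearOrder (O g) := Subtype.instLinearOrder _

instance (g : Lv) : WellFoundedLT (O g) := Subtype.wellFoundedLT _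

noncomputable instance (g : Lv) : Cd LM (O g) where
  c a := a.1.toZFSet
  inj _ _ h := Subtype.ext (toZFSet_injective h)
  ex := ⟨g.o.toZFSet, ord_L.2 g.lt, fun z => mem_toZFSet_iff.trans
    ⟨fun ⟨a, h, e⟩ => ⟨⟨a, h⟩, e⟩, fun ⟨a, e⟩ => ⟨a.1, a.2, e⟩⟩⟩

theorem mf_mem {α β : Type*} [Cd LM α] [Cd LM β] : MF LM fun p : α × β => cd LM p.1 ∈ cd LM p.2 := by
  refine MF.of_df (Df.intro (.ex (.ex (.and (.pr 2 1 0) (.mem 1 0)))) [] (by simp) fun x => ?_)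
  simp only [F0.S, List.getD_cons_zero, List.getD_cons_succ, cd_prod, ZFSet.pair_inj]
  exact ⟨by rintro ⟨_, -, _, -, ⟨rfl, rfl⟩, h⟩; exact h,
    fun h => ⟨_, cd_mem _, _, cd_mem _, ⟨rfl, rfl⟩, h⟩⟩

@[fun_prop] theorem mf_ltO {g : Lv} {α : Type*} [Cd LM α] {f h : α → O g} (hf : MF LM f)
    (hh : MF LM h) : MF LM fun x => f x < h x :=
  (mf_mem.of_iff (q := fun p : O g × O g => p.1 < p.2)
    fun _ => toZFSet_mem_toZFSet_iff.symm).comp (hf.prodMk hh)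

@[fun_prop] theorem mf_leO {g : Lv} {α : Type*} [Cd LM α] {f h : α → O g} (hf : MF LM f)
    (hh : MF LM h) : MF LM fun x => f x ≤ h x := (mf_ltO hh hf).not.of_iff fun _ => not_lt.symm

/-- Terms with levels below a level. -/
abbrev TO (g : Lv) : Type 1 := List (O g × ℕ)

/-- The underlying term. -/
def tv {g : Lv} (t : TO g) : Tm := t.map fun e => (e.1.1, e.2)

theorem tv_inj {g : Lv} : Injective (tv (g := g)) :=
  List.map_injective_iff.2 fun _ _ h => Prod.ext (Subtype.ext (Prod.mk.inj h).1) (Prod.mk.inj h).2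

theorem in_tv {g : Lv} (t : TO g) : In (Iio g.o) (tv t) := fun e he => by
  obtain ⟨x, -, rfl⟩ := List.mem_map.1 he
  exact x.1.2

theorem exists_tv {g : Lv} {t : Tm} (h : In (Iio g.o) t) : ∃ u : TO g, tv u = t :=
  ⟨t.pmap (fun e h => (⟨e.1, h⟩, e.2)) h, by simp [tv, List.map_pmap]⟩

theorem cd_tv {g : Lv} (t : TO g) : cd LM t = tc (tv t) := by
  ext z
  refine (mem_cd_PM (s := listS t)).trans (Iff.trans ?_ mem_tc.symm)
  simp only [tv, List.getElem?_map, Option.map_eq_some_iff]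
  exact ⟨fun ⟨p, h, e⟩ => ⟨p.1, _, ⟨p.2, h, rfl⟩, e⟩,
    fun ⟨i, _, ⟨x, h, rfl⟩, e⟩ => ⟨(i, x), h, e⟩⟩

theorem mf_val (g : Lv) (α : Type*) [Cd LM α] :
    MF LM fun p : TO g × α => p.1 ≠ [] ∧ S (tv p.1) = cd LM p.2 := by
  obtain ⟨a, ha, h⟩ := Cd.ex (M := LM) (α := TO g × α)
  refine MF.of_df ⟨_, sepX (.ex (.ex (.and (.pr 2 1 0) (.ev 1 0)))) [] (by simp) ha, fun z => ?_⟩
  rw [ZFSet.mem_sep, h]
  simp only [St_ex]
  simp only [St, Sx, List.getD_cons_zero, List.getD_cons_succ]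
  constructor
  · rintro ⟨⟨p, rfl⟩, x, -, y, -, e, t, h1, rfl, rfl⟩
    have e' := ZFSet.pair_inj.1 ((cd_prod p).symm.trans e)
    rw [cd_tv, tc_inj.eq_iff] at e'
    exact ⟨p, ⟨fun c => h1.1 (by rw [← e'.1, c]; rfl), by rw [e'.1, e'.2]⟩, rfl⟩
  · rintro ⟨p, ⟨h1, h2⟩, rfl⟩
    exact ⟨⟨p, rfl⟩, _, LM_XS (cd_mem p.1), _, LM_XS (cd_mem p.2), rfl, tv p.1,
      ⟨by simpa [tv] using h1, fun _ _ => trivial⟩, cd_tv _, h2.symm⟩

theorem lex_iff {α : Type*} {r : α → α → Prop} {s t : List α} (h : s.length = t.length) :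
    List.Lex r s t ↔ ∃ i a b, s[i]? = some a ∧ t[i]? = some b ∧ r a b ∧ s.take i = t.take i := by
  induction s generalizing t with
  | nil => obtain rfl := List.length_eq_zero_iff.1 h.symm; simp
  | cons x s ih =>
    obtain _ | ⟨y, t⟩ := t
    · cases h
    rw [List.cons_lex_cons_iff, ih (Nat.succ_inj.1 h)]
    constructor
    · rintro (e | ⟨rfl, i, a, b, e⟩)
      · exact ⟨0, x, y, rfl, rfl, e, rfl⟩
      · exact ⟨i + 1, a, b, by simpa using e⟩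
    · rintro ⟨_ | i, a, b, e⟩
      · left; simp at e; rw [e.1, e.2.1]; exact e.2.2
      · right; simp at e; exact ⟨e.2.2.2.1, i, a, b, e.1, e.2.1, e.2.2.1, e.2.2.2.2⟩

/-- The order of terms. -/
def Lt {α : Type*} [LT α] : List (α × ℕ) → List (α × ℕ) → Prop :=
  List.Shortlex (Prod.Lex (· < ·) (· < ·))

instance {α : Type*} [LinearOrder α] [WellFoundedLT α] : IsWellOrder (List (α × ℕ)) Lt where
  wf := List.Shortlex.wf IsWellFounded.wf
  trichotomous := (List.Shortlex.trichotomous).trichotomous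

theorem Lt_iff {α : Type*} [LT α] {s t : List (α × ℕ)} : Lt s t ↔ s.length < t.length ∨
    s.length = t.length ∧ ∃ i a b, s[i]? = some a ∧ t[i]? = some b ∧
      (a.1 < b.1 ∨ a.1 = b.1 ∧ a.2 < b.2) ∧ s.take i = t.take i := by
  rw [Lt, List.shortlex_def]
  exact or_congr_right (and_congr_right fun h => by simp only [lex_iff h, Prod.lex_def])

@[fun_prop] theorem mf_Lt {g : Lv} {α : Type*} [Cd LM α] {f h : α → TO g} (hf : MF LM f)
    (hh : MF LM h) : MF LM fun x => Lt (f x) (h x) :=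
  MF.of_iff (by fun_prop) fun _ => Lt_iff

theorem exists_Lv (α : Type*) [Cd LM α] :
    ∃ g : Lv, ∀ x : α, ∃ t : TO g, t ≠ [] ∧ S (tv t) = cd LM x := by
  obtain ⟨a, ha, h⟩ := Cd.ex (M := LM) (α := α)
  obtain ⟨b, h1, h2, h3, h4⟩ := exists_lev [a] (by simpa using ha)
  refine ⟨⟨b, h1, h2.1, h3⟩, fun x => ?_⟩
  obtain ⟨t, h5, h6⟩ := mem_L.1 (L_trans (h4 a (by simp)) ((h _).2 ⟨x, rfl⟩))
  obtain ⟨u, rfl⟩ := exists_tv (g := ⟨b, h1, h2.1, h3⟩) h5.2
  exact ⟨u, fun c => h5.1 (by rw [c]; rfl), h6⟩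

instance : Chc LM := ⟨fun a => by
  obtain ⟨g, h⟩ := exists_Lv (ZE a)
  have := mf_val g (ZE a)
  obtain ⟨f, h1, h2⟩ := choice_of_wo (M := LM) (Lt (α := O g)) (by fun_prop)
    (R := fun (x : ZE a) (t : TO g) => t ≠ [] ∧ S (tv t) = cd LM x)
    (this.comp (g := fun p : ZE a × TO g => (p.2, p.1)) (by fun_prop)) h
  exact ⟨fun x y => Lt (f x) (f y), (RelEmbedding.preimage ⟨f, fun x y e =>
    cd_inj.1 ((h2 x).2.symm.trans (e ▸ (h2 y).2))⟩ Lt).isWellOrder, by fun_prop⟩⟩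

end Pool.Agent.Shared.Constr
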